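import Mathlib
import Pool.Agent.T6.H17.LW.Unrel

/-!
# Lie algebras realised by words: the general form
-/

set_option autoImplicit false
set_option linter.unusedSectionVars false

namespace Pool.Agent.T6.H17.LO

open Module Finset Function Pool.Agent.T6.H17.LW

variable {K : Type} [Field K] [CharZero K] [IsAlgClosed K] {Γ : Type} [Group Γ]
  {V : Type} [AddCommGroup V] [Module K V] [FiniteDimensional K V]

/-- The components `pw w` of the words in the Lie algebra `𝔤`, up to scalars. -/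
structure Core (ρ : Representation K Γ V) (𝔤 : Submodule K (End K V))
    (pw : Wd K Γ → End K V) : Prop where
  isAct : IsAct pw
  mem : ∀ w, pw w ∈ 𝔤
  scal : ∀ w, ∃ c : K, act ρ w = pw w + c • 1
  conj : ∀ s w, pw (cj s w) = ρ s * pw w * ρ s⁻¹

/-- The words give the whole Lie algebra, which is simple and perfect. -/
structure Good (ρ : Representation K Γ V) (𝔤 : Submodule K (End K V))
    (pw : Wd K Γ → End K V) : Prop extends Core ρ 𝔤 pw where
  full : ∀ Y ∈ 𝔤, ∃ w, pw w = Y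
  perfect : Perfect 𝔤
  simple : Simple 𝔤
  ne_bot : 𝔤 ≠ ⊥

/-- the adjoint action on the subspace `𝔤` is irreducible -/
def Irr (ρ : Representation K Γ V) (𝔤 : Submodule K (End K V)) : Prop :=
  ∀ L : Submodule K (End K V), L ≤ 𝔤 → (∀ g, ∀ Y ∈ L, ρ g * Y * ρ g⁻¹ ∈ L) → L = ⊥ ∨ L = 𝔤

variable {ρ : Representation K Γ V} {𝔤 : Submodule K (End K V)} {pw : Wd K Γ → End K V}

theorem Core.brk (h : Core ρ 𝔤 pw) (x y : Wd K Γ) :
    pw x * pw y - pw y * pw x = act ρ x * act ρ y - act ρ y * act ρ x := by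
  obtain ⟨c, hc⟩ := h.scal x
  obtain ⟨d, hd⟩ := h.scal y
  rw [hc, hd]
  simp only [add_mul, mul_add, smul_mul_assoc, mul_smul_comm, mul_one, one_mul]
  module

/-- the set of the components -/
def rg {pw : Wd K Γ → End K V} (h : IsAct pw) : Submodule K (End K V) where
  carrier := {Y | ∃ w, pw w = Y}
  zero_mem' := ⟨.smul 0 (.lo 1), by rw [h.smul, zero_smul]⟩
  add_mem' := by
    rintro X Y ⟨w, rfl⟩ ⟨w', rfl⟩
    exact ⟨.add w w', h.add w w'⟩
  smul_mem' := by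
    rintro c X ⟨w, rfl⟩
    exact ⟨.smul c w, h.smul c w⟩

theorem Core.full_of_irr (h : Core ρ 𝔤 pw) (hirr : Irr ρ 𝔤) (hne : ∃ w, pw w ≠ 0) :
    ∀ Y ∈ 𝔤, ∃ w, pw w = Y := by
  rcases hirr (rg h.isAct) (by
    rintro _ ⟨w, rfl⟩
    exact h.mem w) (by
    rintro g _ ⟨w, rfl⟩
    exact ⟨cj g w, h.conj g w⟩) with h2 | h2
  · exfalso
    obtain ⟨w, hw⟩ := hne
    apply hw
    have h3 : pw w ∈ rg h.isAct := ⟨w, rfl⟩
    rw [h2] at h3
    exact (Submodule.mem_bot K).1 h3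
  · intro Y hY
    rw [← h2] at hY
    exact hY

namespace Good

theorem br (h : Good ρ 𝔤 pw) : ∀ Y ∈ 𝔤, ∀ Z ∈ 𝔤, Y * Z - Z * Y ∈ 𝔤 := by
  intro Y hY Z hZ
  obtain ⟨w, rfl⟩ := h.full Y hY
  obtain ⟨w', rfl⟩ := h.full Z hZ
  rw [← h.isAct.br]
  exact h.mem _

/-- every element of the Lie algebra is the image of a word -/
theorem full_act (h : Good ρ 𝔤 pw) : ∀ Y ∈ 𝔤, ∃ w, act ρ w = Y := by
  intro Y hY
  have h1 : Submodule.span K {Z : End K V | ∃ A ∈ 𝔤, ∃ B ∈ 𝔤, Z = A * B - B * A} ≤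
      rg (isAct_act ρ) := by
    rw [Submodule.span_le]
    rintro _ ⟨A, hA, B, hB, rfl⟩
    obtain ⟨w, rfl⟩ := h.full A hA
    obtain ⟨w', rfl⟩ := h.full B hB
    exact ⟨.br w w', by rw [act_br, h.brk]⟩
  exact h1 (h.perfect Y hY)

variable {M : Type} [AddCommGroup M] [Module K M] {a : Wd K Γ → End K M}

/-- brackets of the words of an ideal -/
theorem pf_of_ideal (h : Good ρ 𝔤 pw) (ha : IsAct a)
    (hid : ∀ Y ∈ 𝔤, ∃ w, pw w = Y ∧ ∃ c : K, a w = c • 1) : Pf 𝔤 (act ρ) a := by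
  refine pf_of_br h.perfect (isAct_act ρ) ha fun A hA B hB => ?_
  obtain ⟨w, rfl, c, hw⟩ := hid A hA
  obtain ⟨w', rfl, c', hw'⟩ := hid B hB
  refine ⟨.br w w', by rw [act_br, h.brk], ?_⟩
  rw [ha.br, hw, hw']
  simp only [smul_mul_assoc, mul_smul_comm, mul_one, one_mul]
  module

/-- **One word suffices.** -/
theorem pf_of_one (h : Good ρ 𝔤 pw) (ha : IsAct a) {w : Wd K Γ} (h1 : pw w ≠ 0) (h2 : a w = 0) :
    Pf 𝔤 (act ρ) a := by
  let 𝔨 : Submodule K (End K V) := KQ h.isAct ha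
  have h𝔨 : 𝔨 ≤ 𝔤 := by
    rintro _ ⟨w, rfl, -⟩
    exact h.mem w
  have hid : ∀ Y ∈ 𝔤, ∀ Z ∈ 𝔨, Y * Z - Z * Y ∈ 𝔨 := by
    rintro Y hY _ ⟨w, rfl, hw⟩
    obtain ⟨w', rfl⟩ := h.full Y hY
    exact ⟨.br w' w, by rw [h.isAct.br], by rw [ha.br, hw, zero_mul, mul_zero, sub_zero]⟩
  have h3 : 𝔨 = 𝔤 := by
    refine (h.simple 𝔨 h𝔨 hid).resolve_left fun h0 => h1 ?_
    have h4 : pw w ∈ 𝔨 := ⟨w, rfl, h2⟩
    rw [h0] at h4
    exact (Submodule.mem_bot K).1 h4
  refine h.pf_of_ideal ha fun Y hY => ?_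
  rw [← h3] at hY
  obtain ⟨w, hw, hw'⟩ := hY
  exact ⟨w, hw, 0, by rw [hw', zero_smul]⟩

/-- small spaces -/
theorem pf_of_small (h : Good ρ 𝔤 pw) [FiniteDimensional K M] (ha : IsAct a) {d : ℕ}
    (hd : ∀ (M : Type) [AddCommGroup M] [Module K M] [FiniteDimensional K M]
      (φ : 𝔤 →ₗ[K] End K M), (∀ Y Z W : 𝔤, (W : End K V) = Y * Z - Z * Y →
      φ W = φ Y * φ Z - φ Z * φ Y) → Injective φ → d ≤ finrank K M)
    (hM : finrank K M < d) : Pf 𝔤 (act ρ) a :=
  pf_small h.br h.perfect h.simple (isAct_act ρ) h.full_act d hd _ M a ha rfl hM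

end Good

/-- the logarithm of the unipotent part is nilpotent -/
theorem lgu_pow {f : End K V} (hf : Injective f) : lgu f ^ finrank K V = 0 := by
  rw [lgu_def]
  set U := un f - 1 with hU
  have h1 : U ^ finrank K V = 0 := un_sub_one_pow hf
  -- a multiple of `U`
  obtain ⟨P, hP, hc⟩ : ∃ P : End K V, lg U (finrank K V) = U * P ∧ Commute U P := by
    refine ⟨∑ k ∈ range (finrank K V), lc K k • U ^ (k - 1), ?_, ?_⟩
    · rw [lg, Finset.mul_sum]
      refine Finset.sum_congr rfl fun k _ => ?_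
      rcases Nat.eq_zero_or_pos k with hk | hk
      · rw [hk, lc_zero, zero_smul, mul_zero]
      · rw [mul_smul_comm, ← pow_succ', Nat.sub_add_cancel hk]
    · refine Commute.sum_right _ _ _ fun k _ => ?_
      exact ((Commute.refl U).pow_right _).smul_right _
  rw [hP, hc.mul_pow, h1, zero_mul]

theorem eq_zero_of_nilpotent_scalar [Nontrivial V] {c : K} {n : ℕ}
    (h : (c • (1 : End K V)) ^ n = 0) : c = 0 := by
  obtain ⟨v, hv⟩ := exists_ne (0 : V)
  have h1 : ∀ n : ℕ, ((c • (1 : End K V)) ^ n) v = c ^ n • v := by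
    intro n
    induction n with
    | zero => rw [pow_zero, pow_zero, one_smul, Module.End.one_apply]
    | succ n ih =>
      rw [pow_succ', Module.End.mul_apply, ih, map_smul, LinearMap.smul_apply,
        Module.End.one_apply, smul_smul, pow_succ]
  have h2 := h1 n
  rw [h, LinearMap.zero_apply] at h2
  exact eq_zero_of_pow_eq_zero ((smul_eq_zero.1 h2.symm).resolve_right hv)

/-- if the component of the logarithm vanishes, the operator is semisimple -/
theorem Core.lo_diag (h : Core ρ 𝔤 pw) {γ : Γ} (h0 : pw (.lo γ) = 0) :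
    ∀ β, ∀ x ∈ Module.End.maxGenEigenspace (ρ γ) β, ρ γ x = β • x := by
  rcases subsingleton_or_nontrivial V with hV | hV
  · intro β x _
    exact Subsingleton.elim _ _
  obtain ⟨c, hc⟩ := h.scal (.lo γ)
  rw [h0, zero_add, act_lo] at hc
  have h1 := lgu_pow (rho_inj ρ γ)
  rw [hc] at h1
  have h2 := eq_zero_of_nilpotent_scalar h1
  rw [h2, zero_smul] at hc
  intro β x hx
  exact gen_of_un (rho_inj ρ γ) (un_eq_of_lgu (rho_inj ρ γ) hc) hx

/-- the component of the word attached to an additive function -/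
theorem Core.fr_ne (h : Core ρ 𝔤 pw) {γ : Γ} {β β' : K} {x x' : V}
    (hx : x ∈ Module.End.maxGenEigenspace (ρ γ) β) (hx0 : x ≠ 0)
    (hx' : x' ∈ Module.End.maxGenEigenspace (ρ γ) β') (hx0' : x' ≠ 0)
    (θ : Additive Kˣ →+ K) (hθ : ext0 θ β ≠ ext0 θ β') : pw (.fr θ γ) ≠ 0 := by
  intro h0
  obtain ⟨c, hc⟩ := h.scal (.fr θ γ)
  rw [h0, zero_add, act_fr] at hc
  have h1 := LinearMap.congr_fun hc x
  have h2 := LinearMap.congr_fun hc x'
  rw [op_spec _ _ hx, LinearMap.smul_apply, Module.End.one_apply, ← sub_eq_zero, ← sub_smul] at h1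
  rw [op_spec _ _ hx', LinearMap.smul_apply, Module.End.one_apply, ← sub_eq_zero, ← sub_smul] at h2
  have h3 := (smul_eq_zero.1 h1).resolve_right hx0
  have h4 := (smul_eq_zero.1 h2).resolve_right hx0'
  exact hθ (by linear_combination h3 - h4)

/-- An element whose powers are not scalars gives a nonzero operator. -/
theorem Core.exists_word (h : Core ρ 𝔤 pw) {γ : Γ}
    (hγ : ∀ n : ℕ, 0 < n → ∀ c : K, ρ γ ^ n ≠ c • 1) : ∃ w, pw w ≠ 0 := by
  by_contra hcon
  push Not at hcon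
  have hdiag := h.lo_diag (hcon (.lo γ))
  have hV : Nontrivial V := by
    by_contra hV
    rw [not_nontrivial_iff_subsingleton] at hV
    exact hγ 1 one_pos 0 (LinearMap.ext fun x => Subsingleton.elim _ _)
  obtain ⟨β₀, hβ₀⟩ := Module.End.exists_eigenvalue (ρ γ)
  obtain ⟨x₀, hx₀⟩ := hβ₀.exists_hasEigenvector
  have hx₀g : x₀ ∈ Module.End.maxGenEigenspace (ρ γ) β₀ := by
    refine mem_gen.2 ⟨1, ?_⟩
    rw [pow_one, LinearMap.sub_apply, Module.algebraMap_end_apply, hx₀.apply_eq_smul, sub_self]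
  have hβ₀0 := gen_ne_zero (rho_inj ρ γ) hx₀g hx₀.2
  -- the eigenvalues
  have h2 : ∀ β, Module.End.maxGenEigenspace (ρ γ) β ≠ ⊥ → ∃ n : ℕ, 0 < n ∧ β ^ n = β₀ ^ n := by
    intro β hβ
    obtain ⟨x, hx, hx0⟩ := Submodule.exists_mem_ne_zero_of_ne_bot hβ
    have hβ0 := gen_ne_zero (rho_inj ρ γ) hx hx0
    by_contra hno
    push Not at hno
    obtain ⟨θ, hθ⟩ := exists_add
      ((Units.mk0 β hβ0) * (Units.mk0 β₀ hβ₀0)⁻¹) (by
        intro k hk h
        apply hno k hk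
        rw [mul_pow, inv_pow, mul_inv_eq_one] at h
        have h3 := congrArg (fun x : Kˣ => (x : K)) h
        simpa using h3)
    refine h.fr_ne hx hx0 hx₀g hx₀.2 θ ?_ (hcon _)
    intro h4
    apply hθ
    rw [ofMul_mul, ofMul_inv, map_add, map_neg, ← ext0_ne θ hβ0, ← ext0_ne θ hβ₀0, h4, add_neg_cancel]
  -- the product of the exponents
  have hfin : ∃ N : ℕ, 0 < N ∧ ∀ β, Module.End.maxGenEigenspace (ρ γ) β ≠ ⊥ → β ^ N = β₀ ^ N := by
    have h3 := WellFoundedGT.finite_ne_bot_of_iSupIndep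
      (Module.End.independent_maxGenEigenspace (ρ γ))
    classical
    choose n hn1 hn2 using h2
    let s := h3.toFinset
    have hs : ∀ β, β ∈ s ↔ Module.End.maxGenEigenspace (ρ γ) β ≠ ⊥ := fun β => h3.mem_toFinset
    let N := ∏ β ∈ s.attach, n β.1 ((hs β.1).1 β.2)
    refine ⟨N, Finset.prod_pos fun β _ => hn1 _ _, fun β hβ => ?_⟩
    have h4 : n β hβ ∣ N := Finset.dvd_prod_of_mem (fun β : {x // x ∈ s} => n β.1 ((hs β.1).1 β.2))
      (Finset.mem_attach s ⟨β, (hs β).2 hβ⟩)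
    obtain ⟨k, hk⟩ := h4
    rw [hk, pow_mul, pow_mul, hn2]
  obtain ⟨N, hN, h3⟩ := hfin
  refine hγ N hN (β₀ ^ N) ?_
  refine op_ext (ρ γ) fun β x hx => ?_
  by_cases hx0 : x = 0
  · rw [hx0, map_zero, map_zero]
  have h4 : Module.End.maxGenEigenspace (ρ γ) β ≠ ⊥ := by
    intro h
    rw [h] at hx
    exact hx0 ((Submodule.mem_bot K).1 hx)
  have h5 : ∀ n : ℕ, (ρ γ ^ n) x = β ^ n • x := by
    intro n
    induction n with
    | zero => rw [pow_zero, pow_zero, one_smul, Module.End.one_apply]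
    | succ n ih =>
      rw [pow_succ', Module.End.mul_apply, ih, map_smul, hdiag β x hx, smul_smul, pow_succ]
  rw [h5, h3 β h4, LinearMap.smul_apply, Module.End.one_apply]

section criteria

variable {M : Type} [AddCommGroup M] [Module K M] [FiniteDimensional K M]

/-- an element which is semisimple on `M` and not on `V` -/
theorem Good.pf_of_semisimple (h : Good ρ 𝔤 pw) (τ : Representation K Γ M) {γ : Γ}
    (h1 : Module.End.IsSemisimple (τ γ)) (h2 : ¬ Module.End.IsSemisimple (ρ γ)) :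
    Pf 𝔤 (act ρ) (act τ) := by
  refine h.pf_of_one (isAct_act τ) (w := .lo γ) (fun h0 => ?_)
    (lgu_of_diag (rho_inj τ γ) fun β x hx => diag_of_semisimple h1 hx)
  exact h2 (semisimple_of_diag (h.lo_diag h0))

theorem gen_of_ev {f : End K V} {β : K} (h : f.HasEigenvalue β) :
    ∃ x : V, x ≠ 0 ∧ x ∈ f.maxGenEigenspace β := by
  obtain ⟨x, hx⟩ := h.exists_hasEigenvector
  refine ⟨x, hx.2, mem_gen.2 ⟨1, ?_⟩⟩
  rw [pow_one, LinearMap.sub_apply, Module.algebraMap_end_apply, hx.apply_eq_smul, sub_self]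

/-- two eigenvalues on `V` whose quotient is independent of the eigenvalues on `M` -/
theorem Good.pf_of_eigenvalue (h : Good ρ 𝔤 pw) (τ : Representation K Γ M) {γ : Γ} {β β' : K}
    (h1 : Module.End.HasEigenvalue (ρ γ) β) (h1' : Module.End.HasEigenvalue (ρ γ) β')
    (h2 : ∀ n : ℕ, 0 < n → ∀ u ∈ Subgroup.closure {u : Kˣ | Module.End.HasEigenvalue (τ γ) (u : K)},
      β ^ n ≠ u * β' ^ n) :
    Pf 𝔤 (act ρ) (act τ) := by
  obtain ⟨x, hx0, hx⟩ := gen_of_ev h1
  obtain ⟨x', hx0', hx'⟩ := gen_of_ev h1'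
  have hβ0 := gen_ne_zero (rho_inj ρ γ) hx hx0
  have hβ0' := gen_ne_zero (rho_inj ρ γ) hx' hx0'
  obtain ⟨θ, hθ1, hθ2⟩ := exists_add_sub
    (Subgroup.closure {u : Kˣ | Module.End.HasEigenvalue (τ γ) (u : K)})
    ((Units.mk0 β hβ0) * (Units.mk0 β' hβ0')⁻¹) (by
      intro n hn h
      refine h2 n hn _ h ?_
      push_cast
      rw [Units.val_mk0, Units.val_mk0, mul_pow, mul_assoc, ← mul_pow, inv_mul_cancel₀ hβ0', one_pow,
        mul_one])
  refine h.pf_of_one (isAct_act τ) (w := .fr θ γ) (h.fr_ne hx hx0 hx' hx0' θ ?_) ?_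
  · intro h4
    apply hθ2
    rw [ofMul_mul, ofMul_inv, map_add, map_neg, ← ext0_ne θ hβ0, ← ext0_ne θ hβ0', h4,
      add_neg_cancel]
  · rw [act_fr]
    refine op_ext (τ γ) fun β₁ y hy => ?_
    rw [op_spec _ _ hy, LinearMap.zero_apply]
    by_cases hy0 : y = 0
    · rw [hy0, smul_zero]
    have hβ₁ := gen_ne_zero (rho_inj τ γ) hy hy0
    have hev : Module.End.HasEigenvalue (τ γ) β₁ := by
      have hM : Nontrivial M := ⟨y, 0, hy0⟩
      rw [Module.End.maxGenEigenspace_eq_genEigenspace_finrank] at hy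
      refine (Module.End.hasGenEigenvalue_iff_hasEigenvalue (finrank_pos (R := K) (M := M))).1 ?_
      intro hbot
      rw [hbot] at hy
      exact hy0 ((Submodule.mem_bot K).1 hy)
    have h5 := hθ1 (Units.mk0 β₁ hβ₁) (Subgroup.subset_closure hev)
    rw [ext0_ne θ hβ₁, h5, zero_smul]

/-- **Two Lie algebras** are independent, or isomorphic. -/
theorem Good.pair (h : Good ρ 𝔤 pw) {τ : Representation K Γ M} {𝔥 : Submodule K (End K M)}
    {pw' : Wd K Γ → End K M} (h' : Core τ 𝔥 pw') (hirr : Irr τ 𝔥) :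
    Pf 𝔤 (act ρ) (act τ) ∨ ∃ φ : 𝔤 ≃ₗ[K] 𝔥, ∀ w (hw : pw w ∈ 𝔤), (φ ⟨pw w, hw⟩ : End K M) = pw' w := by
  classical
  by_cases hP : ∃ w, pw w ≠ 0 ∧ pw' w = 0
  · left
    obtain ⟨w, h1, h2⟩ := hP
    let 𝔨 : Submodule K (End K V) := KQ h.isAct h'.isAct
    have h𝔨 : 𝔨 ≤ 𝔤 := by
      rintro _ ⟨w, rfl, -⟩
      exact h.mem w
    have hid : ∀ Y ∈ 𝔤, ∀ Z ∈ 𝔨, Y * Z - Z * Y ∈ 𝔨 := by
      rintro Y hY _ ⟨w, rfl, hw⟩
      obtain ⟨w', rfl⟩ := h.full Y hY
      exact ⟨.br w' w, by rw [h.isAct.br], by rw [h'.isAct.br, hw, zero_mul, mul_zero, sub_zero]⟩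
    have h3 : 𝔨 = 𝔤 := by
      refine (h.simple 𝔨 h𝔨 hid).resolve_left fun h0 => h1 ?_
      have h4 : pw w ∈ 𝔨 := ⟨w, rfl, h2⟩
      rw [h0] at h4
      exact (Submodule.mem_bot K).1 h4
    refine h.pf_of_ideal (isAct_act τ) fun Y hY => ?_
    rw [← h3] at hY
    obtain ⟨w, hw, hw'⟩ := hY
    obtain ⟨c, hc⟩ := h'.scal w
    exact ⟨w, hw, c, by rw [hc, hw', zero_add]⟩
  push Not at hP
  have hP1 : ∀ w, pw' w = 0 → pw w = 0 := by
    intro w hw
    by_contra h0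
    exact hP w h0 hw
  have hne : ∃ w, pw w ≠ 0 := by
    obtain ⟨Y, hY, hY0⟩ := Submodule.exists_mem_ne_zero_of_ne_bot h.ne_bot
    obtain ⟨w, hw⟩ := h.full Y hY
    exact ⟨w, by rw [hw]; exact hY0⟩
  -- all elements of the second Lie algebra
  have hfull' : ∀ Y ∈ 𝔥, ∃ w, pw' w = Y := by
    refine h'.full_of_irr hirr ?_
    obtain ⟨w, hw⟩ := hne
    exact ⟨w, fun h0 => hw (hP1 w h0)⟩
  have hP2 : ∀ w, pw w = 0 → pw' w = 0 := by
    let J : Submodule K (End K M) := KQ h'.isAct h.isAct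
    rcases hirr J (by
      rintro _ ⟨w, rfl, -⟩
      exact h'.mem w) (by
      rintro g _ ⟨w, rfl, hw⟩
      exact ⟨cj g w, h'.conj g w, by rw [h.conj, hw, mul_zero, zero_mul]⟩) with h2 | h2
    · intro w hw
      have h3 : pw' w ∈ J := ⟨w, rfl, hw⟩
      rw [h2] at h3
      exact (Submodule.mem_bot K).1 h3
    · exfalso
      obtain ⟨w, hw⟩ := hne
      apply hw
      have h5 : pw' w ∈ J := by
        rw [h2]
        exact h'.mem w
      obtain ⟨w', h6, h7⟩ := h5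
      have h8 := hP1 (.add w (.smul (-1) w')) (by
        rw [h'.isAct.add, h'.isAct.smul, h6]
        module)
      rw [h.isAct.add, h.isAct.smul, h7, smul_zero, add_zero] at h8
      exact h8
  right
  have hex : ∀ Y : 𝔤, ∃ w, pw w = Y := fun Y => h.full Y Y.2
  choose W hW using hex
  have huniq : ∀ w w', pw w = pw w' → pw' w = pw' w' := by
    intro w w' h0
    have h1 := hP2 (.add w (.smul (-1) w')) (by
      rw [h.isAct.add, h.isAct.smul, h0]
      module)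
    rw [h'.isAct.add, h'.isAct.smul] at h1
    have h2 : pw' w - pw' w' = 0 := by
      rw [← h1]
      module
    exact sub_eq_zero.1 h2
  let φ : 𝔤 →ₗ[K] 𝔥 :=
    { toFun := fun Y => ⟨pw' (W Y), h'.mem _⟩
      map_add' := by
        intro Y Z
        apply Subtype.ext
        change pw' (W (Y + Z)) = pw' (W Y) + pw' (W Z)
        rw [← h'.isAct.add]
        apply huniq
        rw [h.isAct.add, hW, hW, hW]
        rfl
      map_smul' := by
        intro c Y
        apply Subtype.ext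
        change pw' (W (c • Y)) = c • pw' (W Y)
        rw [← h'.isAct.smul]
        apply huniq
        rw [h.isAct.smul, hW, hW]
        rfl }
  have hφw : ∀ (Y : 𝔤) w, pw w = Y → (φ Y : End K M) = pw' w := by
    intro Y w h0
    change pw' (W Y) = pw' w
    apply huniq
    rw [hW, h0]
  have hinj : Injective φ := by
    rw [← LinearMap.ker_eq_bot, Submodule.eq_bot_iff]
    intro Y hY
    have h1 : pw' (W Y) = 0 := congrArg Subtype.val (LinearMap.mem_ker.1 hY)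
    apply Subtype.ext
    rw [← hW]
    exact hP1 _ h1
  have hsurj : Surjective φ := by
    intro Y'
    obtain ⟨w, hw⟩ := hfull' Y' Y'.2
    refine ⟨⟨pw w, h.mem w⟩, ?_⟩
    apply Subtype.ext
    rw [hφw _ w rfl, hw]
  exact ⟨LinearEquiv.ofBijective φ ⟨hinj, hsurj⟩, fun w hw => hφw ⟨pw w, hw⟩ w rfl⟩

theorem Good.pf_of_finrank (h : Good ρ 𝔤 pw) {τ : Representation K Γ M} {𝔥 : Submodule K (End K M)}
    {pw' : Wd K Γ → End K M} (h' : Core τ 𝔥 pw') (hirr : Irr τ 𝔥)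
    (hd : finrank K 𝔥 ≠ finrank K 𝔤) : Pf 𝔤 (act ρ) (act τ) := by
  rcases h.pair h' hirr with h1 | ⟨φ, -⟩
  · exact h1
  · exact absurd (LinearEquiv.finrank_eq φ).symm hd

end criteria

section swap

variable {M : Type} [AddCommGroup M] [Module K M] [FiniteDimensional K M]

/-- independence is symmetric -/
theorem Good.symm (h : Good ρ 𝔤 pw) {τ : Representation K Γ M} {𝔥 : Submodule K (End K M)}
    {pw' : Wd K Γ → End K M} (h' : Good τ 𝔥 pw') (h1 : Pf 𝔤 (act ρ) (act τ)) :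
    Pf 𝔥 (act τ) (act ρ) := by
  refine pf_of_br h'.perfect (isAct_act τ) (isAct_act ρ) fun A hA B hB => ?_
  obtain ⟨w, hw⟩ := h'.full_act A hA
  obtain ⟨w', hw'⟩ := h'.full_act B hB
  -- remove the component
  have key : ∀ w, ∃ w' : Wd K Γ, act τ w' = act τ w ∧ ∃ c : K, act ρ w' = c • 1 := by
    intro w
    obtain ⟨u, hu, hu'⟩ := h1 (pw w) (h.mem w)
    obtain ⟨c, hc⟩ := h.scal w
    refine ⟨.add w (.smul (-1) u), ?_, c, ?_⟩
    · rw [act_add, act_smul, hu', smul_zero, add_zero]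
    · rw [act_add, act_smul, hu, hc]
      module
  obtain ⟨u, hu, c, hc⟩ := key w
  refine ⟨.br u w', ?_, ?_⟩
  · rw [act_br, hu, hw, hw']
  · rw [act_br, hc]
    simp only [smul_mul_assoc, mul_smul_comm, mul_one, one_mul, sub_self]

end swap

end Pool.Agent.T6.H17.LO
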