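import Mathlib

/-!
# Orthogonal representations with big monodromy, and representations unrelated to them

`Γ` is a group, in the applications the absolute Galois group of a finitely generated field, and `K`
is an algebraically closed field of characteristic zero, in the applications an algebraic closure of
the field of `ℓ`-adic numbers. All representations are finite dimensional over `K`.
-/

namespace Pool.Agent.T6.H17.LO

open Module

variable {K : Type} [Field K] {Γ : Type} [Group Γ] {V : Type} [AddCommGroup V] [Module K V]

/-- The Lie algebra of the group of the bilinear form `B`: the operators `Y` with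
`B(Y x, y) + B(x, Y y) = 0`. If `B` is symmetric and nondegenerate, it is the orthogonal Lie algebra (the
exterior square of `V`). -/
def lieAlg (B : V →ₗ[K] V →ₗ[K] K) : Submodule K (End K V) where
  carrier := {Y | ∀ x y, B (Y x) y + B x (Y y) = 0}
  zero_mem' := fun x y => by simp
  add_mem' := by
    intro X Y hX hY x y
    have h1 := hX x y
    have h2 := hY x y
    rw [LinearMap.add_apply, LinearMap.add_apply, map_add, map_add, LinearMap.add_apply]
    linear_combination h1 + h2
  smul_mem' := by
    intro c X hX x y
    have h1 := hX x y
    rw [LinearMap.smul_apply, LinearMap.smul_apply, map_smul, map_smul, LinearMap.smul_apply,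
      smul_eq_mul, smul_eq_mul]
    linear_combination c * h1

/-- The bilinear form `B` is symmetric and nondegenerate, and the group acts by similitudes with the
multiplier `χ`. For instance the primitive cohomology of a smooth projective variety in an even degree,
or the transcendental part of the second cohomology of a `K3` surface, with the cup product; here `χ`
is a power of the cyclotomic character. -/
structure IsOrthogonal (ρ : Representation K Γ V) (B : V →ₗ[K] V →ₗ[K] K) (χ : Γ →* K) : Prop where
  symm : ∀ x y, B x y = B y x
  nondegenerate : ∀ u, (∀ v, B u v = 0) → u = 0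
  multiplier : ∀ g u v, B (ρ g u) (ρ g v) = χ g * B u v

/-- The adjoint action of the group on the subspace `L` of the space of operators is irreducible. -/
def AdjointIrreducible (ρ : Representation K Γ V) (L : Submodule K (End K V)) : Prop :=
  ∀ N : Submodule K (End K V), N ≤ L → (∀ g, ∀ Y ∈ N, ρ g * Y * ρ g⁻¹ ∈ N) → N = ⊥ ∨ N = L

/-- **Big monodromy.** The orthogonal Lie algebra is an irreducible representation of `Γ`, and `Γ`
contains an element no power of which acts by a scalar. If `Γ` is a compact group which acts
continuously on an `ℓ`-adic vector space of dimension at least three, this means that the Zariski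
closure of the image of `Γ` contains the special orthogonal group (in dimension four, that it contains
it and elements of determinant `-1`, up to scalars). -/
structure BigMonodromy (ρ : Representation K Γ V) (B : V →ₗ[K] V →ₗ[K] K) : Prop where
  irreducible : AdjointIrreducible ρ (lieAlg B)
  infinite : ∃ γ, ∀ n : ℕ, 0 < n → ∀ c : K, ρ γ ^ n ≠ c • 1

/-- The representations **unrelated** to the orthogonal representation `ρ` on `V` with the form `B`.
They are built, by tensor products, duals and exact sequences (in particular subrepresentations,
quotients and extensions; the maps need only be equivariant under a subgroup of finite index), from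
representations `τ` of the following kinds:

* `small`: the dimension of `τ` is less than `dim V - 1`, less than `dim V - 2` if `dim V` is even;
* `abelian`: some subgroup of finite index acts by commuting operators (for instance varieties of
  CM type, and all Tate twists);
* `semisimple`: some element of `Γ` acts semisimply in `τ` but not on `V` (for instance an element of
  an inertia group at a place where the variety in question has potentially good reduction but the
  `K3` surface does not);
* `eigenvalue`: some element `γ` of `Γ` (for instance a Frobenius element) has two eigenvalues `β`, `β'`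
  on `V` such that no power of `β / β'` is a product of integral powers of the eigenvalues of `γ`
  in `τ`;
* `form`: `τ` is a representation by similitudes of a bilinear form `B'` for which the adjoint
  representation on the Lie algebra of `B'` is irreducible, and this Lie algebra and the one of `B` have
  different dimensions (for instance the first cohomology of an abelian variety of dimension `g` with big
  monodromy, if the dimension of `V` is not `2 g + 1`);
* `linear`: the adjoint representation on the operators of trace zero is irreducible, and their space
  and the Lie algebra of `B` have different dimensions. -/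
inductive Unrelated (ρ : Representation K Γ V) (B : V →ₗ[K] V →ₗ[K] K) :
    ∀ {M : Type} [AddCommGroup M] [Module K M] [FiniteDimensional K M],
      Representation K Γ M → Prop
  | small {M : Type} [AddCommGroup M] [Module K M] [FiniteDimensional K M]
      (τ : Representation K Γ M) (h : finrank K M < 2 * ((finrank K V - 1) / 2)) : Unrelated ρ B τ
  | abelian {M : Type} [AddCommGroup M] [Module K M] [FiniteDimensional K M]
      (τ : Representation K Γ M) (Δ : Subgroup Γ) (hΔ : Δ.FiniteIndex)
      (h : ∀ g ∈ Δ, ∀ g' ∈ Δ, τ g * τ g' = τ g' * τ g) : Unrelated ρ B τ
  | semisimple {M : Type} [AddCommGroup M] [Module K M] [FiniteDimensional K M]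
      (τ : Representation K Γ M) (γ : Γ) (h : End.IsSemisimple (τ γ))
      (h' : ¬ End.IsSemisimple (ρ γ)) : Unrelated ρ B τ
  | eigenvalue {M : Type} [AddCommGroup M] [Module K M] [FiniteDimensional K M]
      (τ : Representation K Γ M) (γ : Γ) (β β' : K) (h : End.HasEigenvalue (ρ γ) β)
      (h' : End.HasEigenvalue (ρ γ) β')
      (h'' : ∀ n : ℕ, 0 < n →
        ∀ u ∈ Subgroup.closure {u : Kˣ | End.HasEigenvalue (τ γ) (u : K)}, β ^ n ≠ u * β' ^ n) :
      Unrelated ρ B τ
  | form {M : Type} [AddCommGroup M] [Module K M] [FiniteDimensional K M]
      (τ : Representation K Γ M) (B' : M →ₗ[K] M →ₗ[K] K) (χ' : Γ →* K)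
      (h : ∀ g x y, B' (τ g x) (τ g y) = χ' g * B' x y) (hi : AdjointIrreducible τ (lieAlg B'))
      (h' : finrank K (lieAlg B') ≠ finrank K (lieAlg B)) : Unrelated ρ B τ
  | linear {M : Type} [AddCommGroup M] [Module K M] [FiniteDimensional K M]
      (τ : Representation K Γ M) (hi : AdjointIrreducible τ (LinearMap.ker (LinearMap.trace K M)))
      (h' : finrank K (LinearMap.ker (LinearMap.trace K M)) ≠ finrank K (lieAlg B)) :
      Unrelated ρ B τ
  | exact {N M Q : Type} [AddCommGroup N] [Module K N] [FiniteDimensional K N]
      [AddCommGroup M] [Module K M] [FiniteDimensional K M]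
      [AddCommGroup Q] [Module K Q] [FiniteDimensional K Q]
      (σ : Representation K Γ N) (τ : Representation K Γ M) (π : Representation K Γ Q)
      (f : N →ₗ[K] M) (g : M →ₗ[K] Q) (Δ : Subgroup Γ) (hΔ : Δ.FiniteIndex)
      (hf : ∀ s ∈ Δ, ∀ x, f (σ s x) = τ s (f x)) (hg : ∀ s ∈ Δ, ∀ x, g (τ s x) = π s (g x))
      (hfg : Function.Exact f g) (h : Unrelated ρ B σ) (h' : Unrelated ρ B π) : Unrelated ρ B τ
  | tensor {M N : Type} [AddCommGroup M] [Module K M] [FiniteDimensional K M]
      [AddCommGroup N] [Module K N] [FiniteDimensional K N]
      (σ : Representation K Γ M) (τ : Representation K Γ N) (h : Unrelated ρ B σ)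
      (h' : Unrelated ρ B τ) : Unrelated ρ B (σ.tprod τ)
  | dual {M : Type} [AddCommGroup M] [Module K M] [FiniteDimensional K M]
      (τ : Representation K Γ M) (h : Unrelated ρ B τ) : Unrelated ρ B τ.dual

/-- The pairing of a vector of `V i` and a vector of `V j`: the form `B i` if `i = j`, and zero if
`i ≠ j`. -/
def pairing {I : Type} [DecidableEq I] {V : I → Type} [∀ i, AddCommGroup (V i)]
    [∀ i, Module K (V i)] (B : ∀ i, V i →ₗ[K] V i →ₗ[K] K) (i j : I) : V i →ₗ[K] V j →ₗ[K] K :=
  if h : i = j then h ▸ B i else 0

end Pool.Agent.T6.H17.LO
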