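import Mathlib
import Pool.Agent.T6.H17.LO.Core

/-!
# The orthogonal Lie algebra
-/

set_option autoImplicit false
set_option linter.unusedSectionVars false

namespace Pool.Agent.T6.H17.LO

open Module Finset Function Pool.Agent.T6.H17.LW

variable {K : Type} [Field K] {V : Type} [AddCommGroup V] [Module K V]

/-- The endomorphism `x ↦ B(u, x) w - B(w, x) u`. -/
def AA (B : V →ₗ[K] V →ₗ[K] K) (u w : V) : End K V := (B u).smulRight w - (B w).smulRight u

theorem AA_apply (B : V →ₗ[K] V →ₗ[K] K) (u w x : V) : AA B u w x = B u x • w - B w x • u := rfl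

variable {B : V →ₗ[K] V →ₗ[K] K} (hsy : ∀ x y, B x y = B y x)
  (hnd : ∀ u, (∀ v, B u v = 0) → u = 0)

theorem AA_comm (u w : V) : AA B w u = -AA B u w := by
  ext x
  rw [LinearMap.neg_apply, AA_apply, AA_apply]
  abel

theorem AA_add_left (u u' w : V) : AA B (u + u') w = AA B u w + AA B u' w := by
  ext x
  rw [LinearMap.add_apply, AA_apply, AA_apply, AA_apply, map_add, LinearMap.add_apply]
  module

theorem AA_smul_left (c : K) (u w : V) : AA B (c • u) w = c • AA B u w := by
  ext x
  rw [LinearMap.smul_apply, AA_apply, AA_apply, map_smul, LinearMap.smul_apply, smul_eq_mul]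
  module

theorem AA_add_right (u w w' : V) : AA B u (w + w') = AA B u w + AA B u w' := by
  rw [AA_comm, AA_add_left, AA_comm w u, AA_comm w' u]
  rw [← AA_comm w u, ← AA_comm w' u]
  rw [AA_comm w u, AA_comm w' u, AA_comm u w, AA_comm u w']
  abel

theorem AA_smul_right (c : K) (u w : V) : AA B u (c • w) = c • AA B u w := by
  rw [AA_comm, AA_smul_left, AA_comm u w, smul_neg, neg_neg]

include hsy in
theorem AA_mem (u w : V) : AA B u w ∈ spL B := by
  rw [mem_spL]
  intro x y
  rw [AA_apply, AA_apply]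
  simp only [map_sub, LinearMap.sub_apply, map_smul, LinearMap.smul_apply, smul_eq_mul]
  rw [hsy x w, hsy x u]
  ring

/-- the bracket with a generator -/
theorem br_AA {Y : End K V} (hY : Y ∈ spL B) (u w : V) :
    Y * AA B u w - AA B u w * Y = AA B (Y u) w + AA B u (Y w) := by
  rw [mem_spL] at hY
  ext v
  rw [LinearMap.sub_apply, LinearMap.add_apply, End.mul_apply, End.mul_apply, AA_apply, AA_apply,
    AA_apply, AA_apply, map_sub, map_smul, map_smul]
  have h1 := hY u v
  have h2 := hY w v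
  have h3 : B u (Y v) = -B (Y u) v := by linear_combination h1
  have h4 : B w (Y v) = -B (Y w) v := by linear_combination h2
  rw [h3, h4]
  module

variable [CharZero K] [IsAlgClosed K] [FiniteDimensional K V]

include hsy hnd in
/-- an orthonormal basis -/
theorem exists_on : ∃ e : Basis (Fin (finrank K V)) K V, ∀ i j, B (e i) (e j) = if i = j then 1 else 0 := by
  classical
  have _i : Invertible (2 : K) := invertibleOfNonzero two_ne_zero
  obtain ⟨v, hv⟩ := LinearMap.BilinForm.exists_orthogonal_basis (B := B) ⟨fun x y => hsy x y⟩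
  have h0 : ∀ i j, i ≠ j → B (v i) (v j) = 0 := fun i j hij => hv hij
  have h1 : ∀ i, B (v i) (v i) ≠ 0 := by
    intro i hi
    apply v.ne_zero i
    refine hnd _ fun x => ?_
    have h2 : B (v i) = 0 := by
      refine v.ext fun j => ?_
      by_cases hij : i = j
      · subst hij
        rw [hi, LinearMap.zero_apply]
      · rw [h0 i j hij, LinearMap.zero_apply]
    rw [h2, LinearMap.zero_apply]
  have h2 : ∀ i, ∃ r : K, r ^ 2 = B (v i) (v i) := fun i =>
    IsAlgClosed.exists_pow_nat_eq _ two_pos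
  choose r hr using h2
  have hr0 : ∀ i, r i ≠ 0 := by
    intro i h
    apply h1 i
    rw [← hr i, h]
    norm_num
  refine ⟨v.isUnitSMul (w := fun i => (r i)⁻¹) fun i => (inv_ne_zero (hr0 i)).isUnit, fun i j => ?_⟩
  rw [Basis.isUnitSMul_apply, Basis.isUnitSMul_apply, map_smul, map_smul, LinearMap.smul_apply,
    smul_eq_mul, smul_eq_mul]
  by_cases hij : i = j
  · subst hij
    rw [if_pos rfl, ← hr]
    have := hr0 i
    field_simp
  · rw [if_neg hij, h0 i j hij, mul_zero, mul_zero]

section basis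

variable {m : ℕ} {e : Basis (Fin m) K V} (he : ∀ i j, B (e i) (e j) = if i = j then 1 else 0)

include he hsy in
theorem expand (x : V) : ∑ i, B (e i) x • e i = x := by
  have h1 : ∀ x, (∑ i, B (e i) x • e i) = (∑ i, (B (e i)).smulRight (e i)) x := by
    intro x
    rw [LinearMap.sum_apply]
    rfl
  rw [h1]
  have h2 : (∑ i, (B (e i)).smulRight (e i)) = LinearMap.id := by
    refine e.ext fun j => ?_
    rw [← h1, LinearMap.id_apply]
    have h3 : ∀ i, B (e i) (e j) • e i = if i = j then e j else 0 := by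
      intro i
      rw [he]
      by_cases hij : i = j
      · rw [if_pos hij, if_pos hij, one_smul, hij]
      · rw [if_neg hij, if_neg hij, zero_smul]
    rw [Finset.sum_congr rfl fun i _ => h3 i, Finset.sum_ite_eq', if_pos (Finset.mem_univ j)]
  rw [h2, LinearMap.id_apply]

include he hsy in
theorem soL_formula {Z : End K V} (hZ : Z ∈ spL B) :
    Z = (2 : K)⁻¹ • ∑ i, AA B (e i) (Z (e i)) := by
  rw [mem_spL] at hZ
  ext x
  rw [LinearMap.smul_apply, LinearMap.sum_apply]
  have h1 : ∀ i, AA B (e i) (Z (e i)) x = Z (B (e i) x • e i) + B (e i) (Z x) • e i := by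
    intro i
    have h2 := hZ (e i) x
    have h3 : B (Z (e i)) x = -B (e i) (Z x) := by linear_combination h2
    rw [AA_apply, map_smul, h3, neg_smul, sub_neg_eq_add]
  rw [Finset.sum_congr rfl fun i _ => h1 i, Finset.sum_add_distrib, ← map_sum, expand hsy he,
    expand hsy he, ← two_smul K, smul_smul, inv_mul_cancel₀ two_ne_zero, one_smul]

include he hsy in
/-- a subspace which contains the generators attached to the basis -/
theorem le_of_basis {𝔨 : Submodule K (End K V)} (h : ∀ i j, i ≠ j → AA B (e i) (e j) ∈ 𝔨) :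
    spL B ≤ 𝔨 := by
  have h0 : ∀ i j, AA B (e i) (e j) ∈ 𝔨 := by
    intro i j
    by_cases hij : i = j
    · have h1 : AA B (e i) (e j) = 0 := by
        subst hij
        ext x
        rw [AA_apply, sub_self, LinearMap.zero_apply]
      rw [h1]
      exact 𝔨.zero_mem
    · exact h i j hij
  have h1 : ∀ i x, AA B (e i) x ∈ 𝔨 := by
    intro i x
    have h2 : AA B (e i) x = ∑ j, B (e j) x • AA B (e i) (e j) := by
      conv_lhs => rw [← expand hsy he x]
      have h3 : ∀ s : Finset (Fin m), AA B (e i) (∑ j ∈ s, B (e j) x • e j) =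
          ∑ j ∈ s, B (e j) x • AA B (e i) (e j) := by
        intro s
        classical
        induction s using Finset.induction_on with
        | empty =>
          rw [Finset.sum_empty, Finset.sum_empty]
          ext y
          rw [AA_apply, map_zero, LinearMap.zero_apply, zero_smul, smul_zero, sub_zero,
            LinearMap.zero_apply]
        | insert j s hj ih =>
          rw [Finset.sum_insert hj, Finset.sum_insert hj, AA_add_right, ih, AA_smul_right]
      exact h3 _
    rw [h2]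
    exact 𝔨.sum_mem fun j _ => 𝔨.smul_mem _ (h0 i j)
  intro Z hZ
  rw [soL_formula hsy he hZ]
  exact 𝔨.smul_mem _ (𝔨.sum_mem fun i _ => h1 i _)

include he hsy in
/-- brackets of the generators -/
theorem br_basis {i j k : Fin m} (hij : i ≠ j) (hik : i ≠ k) (hjk : j ≠ k) :
    AA B (e i) (e k) * AA B (e k) (e j) - AA B (e k) (e j) * AA B (e i) (e k) =
      -AA B (e i) (e j) := by
  rw [br_AA (AA_mem hsy _ _), AA_apply, AA_apply, he, he, he, he, if_neg hik, if_pos rfl,
    if_neg hij, if_neg (Ne.symm hjk)]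
  ext x
  simp only [zero_smul, one_smul, zero_sub, sub_zero, LinearMap.add_apply, LinearMap.neg_apply,
    AA_apply, map_neg, map_zero, LinearMap.zero_apply, smul_zero, smul_neg]
  module

end basis

include hsy hnd in
theorem soL_perfect (hm : 3 ≤ finrank K V) : Perfect (spL B) := by
  obtain ⟨e, he⟩ := exists_on hsy hnd
  intro Y hY
  refine le_of_basis hsy he (fun i j hij => ?_) hY
  obtain ⟨k, hk⟩ : ∃ k : Fin (finrank K V), k ≠ i ∧ k ≠ j := by
    by_contra hcon
    push Not at hcon
    have h1 : (Finset.univ : Finset (Fin (finrank K V))) ⊆ {i, j} := by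
      intro k _
      rw [Finset.mem_insert, Finset.mem_singleton]
      by_cases h : k = i
      · exact Or.inl h
      · exact Or.inr (hcon k h)
    have h2 := (Finset.card_le_card h1).trans Finset.card_le_two
    rw [Finset.card_univ, Fintype.card_fin] at h2
    omega
  have h1 := br_basis hsy he hij (Ne.symm hk.1) (Ne.symm hk.2)
  rw [← neg_neg (AA B (e i) (e j)), ← h1]
  refine Submodule.neg_mem _ (Submodule.subset_span ⟨_, AA_mem hsy _ _, _, AA_mem hsy _ _, rfl⟩)

section simple

variable {m : ℕ} {e : Basis (Fin m) K V} (he : ∀ i j, B (e i) (e j) = if i = j then 1 else 0)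

include he hsy in
/-- the part of an element of an ideal that does not commute with a generator -/
theorem off {𝔨 : Submodule K (End K V)} (h𝔨 : 𝔨 ≤ spL B)
    (hid : ∀ Y ∈ spL B, ∀ Z ∈ 𝔨, Y * Z - Z * Y ∈ 𝔨) {Z : End K V} (hZ : Z ∈ 𝔨) {i j : Fin m}
    (hij : i ≠ j) : ∃ Z' ∈ 𝔨, ∀ a b, B (e a) (Z' (e b)) =
      if ((a = i ∨ a = j) ↔ ¬ (b = i ∨ b = j)) then B (e a) (Z (e b)) else 0 := by
  set P := AA B (e i) (e j) with hP
  have hPm : P ∈ spL B := AA_mem hsy _ _
  have hPi : P (e i) = e j := by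
    rw [hP, AA_apply, he, he, if_pos rfl, if_neg (Ne.symm hij), one_smul, zero_smul, sub_zero]
  have hPj : P (e j) = -e i := by
    rw [hP, AA_apply, he, he, if_pos rfl, if_neg hij, one_smul, zero_smul, zero_sub]
  have hPa : ∀ a, a ≠ i → a ≠ j → P (e a) = 0 := by
    intro a hai haj
    rw [hP, AA_apply, he, he, if_neg (Ne.symm hai), if_neg (Ne.symm haj), zero_smul, zero_smul,
      sub_zero]
  clear_value P
  have hZ1 := hid P hPm Z hZ
  have hZ2 := hid P hPm _ hZ1
  have hzs : ∀ x y, B x (Z y) = -B y (Z x) := by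
    intro x y
    have h1 := h𝔨 hZ x y
    rw [hsy (Z x) y] at h1
    linear_combination h1
  have hz0 : ∀ x, B x (Z x) = 0 := by
    intro x
    have h1 := hzs x x
    have h2 : (2 : K) * B x (Z x) = 0 := by linear_combination h1
    exact (mul_eq_zero.1 h2).resolve_left two_ne_zero
  have hPs : ∀ x y, B x (P y) = -B (P x) y := by
    intro x y
    have h1 := hPm x y
    linear_combination h1
  refine ⟨-(P * (P * Z - Z * P) - (P * Z - Z * P) * P), 𝔨.neg_mem hZ2, fun a b => ?_⟩
  have h1 : B (e a) ((-(P * (P * Z - Z * P) - (P * Z - Z * P) * P)) (e b)) =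
      -(B (P (P (e a))) (Z (e b)) + 2 * B (P (e a)) (Z (P (e b))) + B (e a) (Z (P (P (e b))))) := by
    simp only [LinearMap.neg_apply, LinearMap.sub_apply, Module.End.mul_apply, map_neg, map_sub]
    rw [hPs (e a) (P (Z (e b))), hPs (P (e a)) (Z (e b)), hPs (e a) (Z (P (e b)))]
    ring
  rw [h1]
  by_cases hai : a = i
  · subst hai
    by_cases hbi : b = a
    · subst hbi
      rw [if_neg (by tauto)]
      simp only [hPi, hPj, map_neg, LinearMap.neg_apply, hz0]
      ring
    · by_cases hbj : b = j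
      · subst hbj
        rw [if_neg (by tauto)]
        simp only [hPi, hPj, map_neg, LinearMap.neg_apply]
        linear_combination 2 * hzs (e a) (e b)
      · rw [if_pos (by tauto)]
        simp only [hPi, hPj, hPa b hbi hbj, map_neg, LinearMap.neg_apply, map_zero]
        ring
  · by_cases haj : a = j
    · subst haj
      by_cases hbi : b = i
      · subst hbi
        rw [if_neg (by tauto)]
        simp only [hPi, hPj, map_neg, LinearMap.neg_apply]
        linear_combination 2 * hzs (e a) (e b)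
      · by_cases hbj : b = a
        · subst hbj
          rw [if_neg (by tauto)]
          simp only [hPi, hPj, map_neg, LinearMap.neg_apply, hz0]
          ring
        · rw [if_pos (by tauto)]
          simp only [hPi, hPj, hPa b hbi hbj, map_neg, LinearMap.neg_apply, map_zero]
          ring
    · by_cases hbi : b = i
      · subst hbi
        rw [if_pos (by tauto)]
        simp only [hPi, hPj, hPa a hai haj, map_neg, LinearMap.zero_apply, map_zero]
        ring
      · by_cases hbj : b = j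
        · subst hbj
          rw [if_pos (by tauto)]
          simp only [hPi, hPj, hPa a hai haj, map_neg, LinearMap.zero_apply, map_zero]
          ring
        · rw [if_neg (by tauto)]
          simp only [hPa a hai haj, hPa b hbi hbj, LinearMap.zero_apply, map_zero]
          ring

theorem comb5 {a b i j k l l' : ℕ} (hij : i ≠ j) (hk : k ≠ i ∧ k ≠ j) (hl : l ≠ i ∧ l ≠ j ∧ l ≠ k)
    (hl' : l' ≠ i ∧ l' ≠ j ∧ l' ≠ k ∧ l' ≠ l)
    (h1 : (a = i ∨ a = k) ↔ ¬ (b = i ∨ b = k)) (h2 : (a = j ∨ a = k) ↔ ¬ (b = j ∨ b = k))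
    (h3 : (a = i ∨ a = l) ↔ ¬ (b = i ∨ b = l)) (h4 : (a = i ∨ a = l') ↔ ¬ (b = i ∨ b = l')) :
    (a = i ∧ b = j) ∨ (a = j ∧ b = i) := by
  have key : ∀ {p q : Prop}, (p ↔ ¬ q) → ¬ p → q := fun {p q} h hp => by
    by_contra hq
    exact hp (h.2 hq)
  by_cases hai : a = i
  · by_cases hbj : b = j
    · exact Or.inl ⟨hai, hbj⟩
    · exfalso
      have h5 := h1.1 (Or.inl hai)
      have h7 : b = j ∨ b = k := key h2 (by clear h1 h2 h3 h4; omega)
      clear h1 h2 h3 h4
      omega
  · by_cases hak : a = k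
    · exfalso
      have h5 := h1.1 (Or.inr hak)
      have h6 : b = i ∨ b = l := key h3 (by clear h1 h2 h3 h4; omega)
      have h7 : b = i ∨ b = l' := key h4 (by clear h1 h2 h3 h4; omega)
      clear h1 h2 h3 h4
      omega
    · have h5 : b = i ∨ b = k := key h1 (by clear h1 h2 h3 h4; omega)
      by_cases haj : a = j
      · have h6 := h2.1 (Or.inl haj)
        clear h1 h2 h3 h4
        omega
      · exfalso
        have h6 : b = j ∨ b = k := key h2 (by clear h1 h2 h3 h4; omega)
        by_cases hal : a = l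
        · have h7 : b = i ∨ b = l' := key h4 (by clear h1 h2 h3 h4; omega)
          clear h1 h2 h3 h4
          omega
        · have h7 : b = i ∨ b = l := key h3 (by clear h1 h2 h3 h4; omega)
          clear h1 h2 h3 h4
          omega

theorem comb5' {a b i j k l l' : ℕ} (hij : i ≠ j) (hk : k ≠ i ∧ k ≠ j) (hl : l ≠ i ∧ l ≠ j ∧ l ≠ k)
    (hl' : l' ≠ i ∧ l' ≠ j ∧ l' ≠ k ∧ l' ≠ l) (h : (a = i ∧ b = j) ∨ (a = j ∧ b = i)) :
    ((a = i ∨ a = k) ↔ ¬ (b = i ∨ b = k)) ∧ ((a = j ∨ a = k) ↔ ¬ (b = j ∨ b = k)) ∧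
    ((a = i ∨ a = l) ↔ ¬ (b = i ∨ b = l)) ∧ ((a = i ∨ a = l') ↔ ¬ (b = i ∨ b = l')) := by
  rcases h with ⟨rfl, rfl⟩ | ⟨rfl, rfl⟩
  · exact ⟨⟨fun _ => by omega, fun _ => Or.inl rfl⟩,
      ⟨fun h => by omega, fun h => absurd (Or.inl rfl) h⟩, ⟨fun _ => by omega, fun _ => Or.inl rfl⟩,
      ⟨fun _ => by omega, fun _ => Or.inl rfl⟩⟩
  · exact ⟨⟨fun h => by omega, fun h => absurd (Or.inl rfl) h⟩,
      ⟨fun _ => by omega, fun _ => Or.inl rfl⟩, ⟨fun h => by omega, fun h => absurd (Or.inl rfl) h⟩,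
      ⟨fun h => by omega, fun h => absurd (Or.inl rfl) h⟩⟩

include he hsy in
/-- A nonzero ideal contains a generator. -/
theorem exists_gen (hm : m = 3 ∨ 5 ≤ m) {𝔨 : Submodule K (End K V)} (h𝔨 : 𝔨 ≤ spL B)
    (hid : ∀ Y ∈ spL B, ∀ Z ∈ 𝔨, Y * Z - Z * Y ∈ 𝔨) (hne : 𝔨 ≠ ⊥) :
    ∃ i j, i ≠ j ∧ AA B (e i) (e j) ∈ 𝔨 := by
  obtain ⟨Z, hZ, hZ0⟩ := Submodule.exists_mem_ne_zero_of_ne_bot hne
  -- a nonzero coordinate
  obtain ⟨i, j, hz⟩ : ∃ i j, B (e i) (Z (e j)) ≠ 0 := by
    by_contra hcon
    push Not at hcon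
    apply hZ0
    refine e.ext fun j => ?_
    rw [LinearMap.zero_apply, ← expand hsy he (Z (e j))]
    exact Finset.sum_eq_zero fun i _ => by rw [hcon, zero_smul]
  have hij : i ≠ j := by
    rintro rfl
    have h1 := h𝔨 hZ (e i) (e i)
    rw [hsy (Z (e i)) (e i)] at h1
    have h2 : (2 : K) * B (e i) (Z (e i)) = 0 := by linear_combination h1
    exact hz ((mul_eq_zero.1 h2).resolve_left two_ne_zero)
  have hex : ∀ s : Finset (Fin m), s.card < m → ∃ k, k ∉ s := by
    intro s hs
    by_contra hcon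
    push Not at hcon
    have h1 : s = Finset.univ := Finset.eq_univ_of_forall hcon
    rw [h1, Finset.card_univ, Fintype.card_fin] at hs
    exact lt_irrefl _ hs
  obtain ⟨k, hk⟩ := hex {i, j} (lt_of_le_of_lt Finset.card_le_two (by omega))
  simp only [Finset.mem_insert, Finset.mem_singleton, not_or] at hk
  -- isolate the coordinate
  obtain ⟨E, hE, hEc⟩ : ∃ E ∈ 𝔨, ∀ a b, B (e a) (E (e b)) =
      if (a = i ∧ b = j) ∨ (a = j ∧ b = i) then B (e a) (Z (e b)) else 0 := by
    obtain ⟨Z1, hZ1, h1⟩ := off hsy he h𝔨 hid hZ (i := i) (j := k) (Ne.symm hk.1)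
    obtain ⟨Z2, hZ2, h2⟩ := off hsy he h𝔨 hid hZ1 (i := j) (j := k) (Ne.symm hk.2)
    rcases hm with hm | hm
    · refine ⟨Z2, hZ2, fun a b => ?_⟩
      rw [h2, h1, ← ite_and]
      have ha := a.2
      have hb := b.2
      have hi := i.2
      have hj := j.2
      have hkk := k.2
      refine if_congr ?_ rfl rfl
      simp only [Fin.ext_iff] at hk hij ⊢
      omega
    · obtain ⟨l, hl⟩ := hex {i, j, k} (lt_of_le_of_lt Finset.card_le_three (by omega))
      simp only [Finset.mem_insert, Finset.mem_singleton, not_or] at hl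
      obtain ⟨l', hl'⟩ := hex {i, j, k, l} (lt_of_le_of_lt Finset.card_le_four (by omega))
      simp only [Finset.mem_insert, Finset.mem_singleton, not_or] at hl'
      obtain ⟨Z3, hZ3, h3⟩ := off hsy he h𝔨 hid hZ2 (i := i) (j := l) (Ne.symm hl.1)
      obtain ⟨Z4, hZ4, h4⟩ := off hsy he h𝔨 hid hZ3 (i := i) (j := l') (Ne.symm hl'.1)
      refine ⟨Z4, hZ4, fun a b => ?_⟩
      rw [h4, h3, h2, h1, ← ite_and, ← ite_and, ← ite_and]
      refine if_congr ?_ rfl rfl
      have hij' : (i : ℕ) ≠ j := fun h => hij (Fin.ext h)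
      simp only [Fin.ext_iff] at hk hl hl' ⊢
      constructor
      · rintro ⟨⟨⟨k4, k3⟩, k2⟩, k1⟩
        exact comb5 hij' hk hl hl' k1 k2 k3 k4
      · intro h
        obtain ⟨k1, k2, k3, k4⟩ := comb5' hij' hk hl hl' h
        exact ⟨⟨⟨k4, k3⟩, k2⟩, k1⟩
  refine ⟨i, j, hij, ?_⟩
  have h1 : E = (-B (e i) (Z (e j))) • AA B (e i) (e j) := by
    refine e.ext fun b => ?_
    rw [← expand hsy he (E (e b)), ← expand hsy he (((-B (e i) (Z (e j))) • AA B (e i) (e j)) (e b))]
    refine Finset.sum_congr rfl fun a _ => ?_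
    congr 1
    rw [hEc, LinearMap.smul_apply, AA_apply, map_smul, map_sub, map_smul, map_smul, he, he, he, he,
      smul_eq_mul, smul_eq_mul, smul_eq_mul]
    have hzs : B (e j) (Z (e i)) = -B (e i) (Z (e j)) := by
      have h1 := h𝔨 hZ (e i) (e j)
      rw [hsy (Z (e i)) (e j)] at h1
      linear_combination h1
    by_cases h5 : a = i ∧ b = j
    · obtain ⟨rfl, rfl⟩ := h5
      rw [if_pos (Or.inl ⟨rfl, rfl⟩), if_neg hij, if_pos rfl, if_pos rfl]
      ring
    · by_cases h6 : a = j ∧ b = i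
      · obtain ⟨rfl, rfl⟩ := h6
        rw [if_pos (Or.inr ⟨rfl, rfl⟩), if_pos rfl, if_pos rfl, if_neg (Ne.symm hij), hzs]
        ring
      · rw [if_neg (by tauto)]
        by_cases h7 : i = b
        · subst h7
          rw [if_pos rfl, if_neg (fun h => h6 ⟨h, rfl⟩), if_neg (Ne.symm hij)]
          ring
        · rw [if_neg h7]
          by_cases h8 : j = b
          · subst h8
            rw [if_pos rfl, if_neg (fun h : a = i => h5 ⟨h, rfl⟩)]
            ring
          · rw [if_neg h8]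
            ring
  rw [h1] at hE
  exact (Submodule.smul_mem_iff _ (neg_ne_zero.2 hz)).1 hE

include he hsy in
/-- A nonzero ideal contains all generators. -/
theorem all_gen (hm : m = 3 ∨ 5 ≤ m) {𝔨 : Submodule K (End K V)} (h𝔨 : 𝔨 ≤ spL B)
    (hid : ∀ Y ∈ spL B, ∀ Z ∈ 𝔨, Y * Z - Z * Y ∈ 𝔨) (hne : 𝔨 ≠ ⊥) :
    ∀ i j, i ≠ j → AA B (e i) (e j) ∈ 𝔨 := by
  obtain ⟨i, j, hij, h1⟩ := exists_gen hsy he hm h𝔨 hid hne
  -- change the first index
  have hch : ∀ i j k, i ≠ j → k ≠ j → AA B (e i) (e j) ∈ 𝔨 → AA B (e k) (e j) ∈ 𝔨 := by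
    intro i j k hij hkj h
    by_cases hki : k = i
    · rw [hki]
      exact h
    · have h2 := hid _ (AA_mem hsy (e k) (e i)) _ h
      rw [br_basis hsy he hkj hki (Ne.symm hij)] at h2
      exact (Submodule.neg_mem_iff _).1 h2
  have hsw : ∀ i j, AA B (e i) (e j) ∈ 𝔨 → AA B (e j) (e i) ∈ 𝔨 := by
    intro i j h
    rw [AA_comm]
    exact 𝔨.neg_mem h
  intro k l hkl
  by_cases hkj : k = j
  · subst hkj
    -- `(k, l)` from `(i, k)`
    exact hsw _ _ (hch i k l hij (Ne.symm hkl) h1)
  · have h2 := hch i j k hij hkj h1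
    exact hsw _ _ (hch j k l (Ne.symm hkj) (Ne.symm hkl) (hsw _ _ h2))

end simple

section conc

include hsy hnd in
theorem soL_simple (hm : finrank K V = 3 ∨ 5 ≤ finrank K V) : Simple (spL B) := by
  obtain ⟨e, he⟩ := exists_on hsy hnd
  intro 𝔨 h𝔨 hid
  by_cases hne : 𝔨 = ⊥
  · exact Or.inl hne
  · exact Or.inr (le_antisymm h𝔨 (le_of_basis hsy he (all_gen hsy he hm h𝔨 hid hne)))

include hsy hnd in
theorem soL_ne_bot (hm : 3 ≤ finrank K V) : spL B ≠ ⊥ := by
  obtain ⟨e, he⟩ := exists_on hsy hnd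
  intro h
  have h1 := AA_mem hsy (e ⟨0, by omega⟩) (e ⟨1, by omega⟩)
  rw [h, Submodule.mem_bot] at h1
  have h2 := LinearMap.congr_fun h1 (e ⟨0, by omega⟩)
  rw [AA_apply, he, he, if_pos rfl, if_neg (by simp), one_smul, zero_smul, sub_zero,
    LinearMap.zero_apply] at h2
  exact e.ne_zero _ h2

end conc

end Pool.Agent.T6.H17.LO
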