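import Mathlib
import Pool.Agent.T6.H17.LO.So

/-!
# The orthogonal Lie algebra does not act on small spaces
-/

set_option autoImplicit false
set_option linter.unusedSectionVars false

namespace Pool.Agent.T6.H17.LO

open Module Finset Function Pool.Agent.T6.H17.LW

variable {K : Type} [Field K] {V : Type} [AddCommGroup V] [Module K V]
  {B : V →ₗ[K] V →ₗ[K] K} (hsy : ∀ x y, B x y = B y x) (hnd : ∀ u, (∀ v, B u v = 0) → u = 0)

theorem AA_zero_left (w : V) : AA B 0 w = 0 := by
  ext x
  rw [AA_apply, map_zero, LinearMap.zero_apply, zero_smul, smul_zero, sub_zero,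
    LinearMap.zero_apply]

theorem AA_zero_right (u : V) : AA B u 0 = 0 := by
  rw [AA_comm, AA_zero_left, neg_zero]

theorem AA_neg_right (u w : V) : AA B u (-w) = -AA B u w := by
  rw [← neg_one_smul K w, AA_smul_right, neg_one_smul]

include hsy in
theorem br_orth {u w u' w' : V} (h1 : B u u' = 0) (h2 : B u w' = 0) (h3 : B w u' = 0)
    (h4 : B w w' = 0) : AA B u w * AA B u' w' - AA B u' w' * AA B u w = 0 := by
  rw [br_AA (AA_mem hsy _ _), AA_apply, AA_apply, h1, h2, h3, h4]
  simp only [zero_smul, sub_zero]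
  rw [AA_zero_left, AA_zero_right, add_zero]

include hsy in
theorem br_xy {p a b : V} (hpp : B p p = 1) (hpa : B p a = 0) (hpb : B p b = 0) (hab : B a b = 0) :
    AA B p a * AA B p b - AA B p b * AA B p a = AA B a b := by
  rw [br_AA (AA_mem hsy _ _), AA_apply, AA_apply, hpp, hsy a p, hpa, hpb, hab]
  simp only [zero_smul, one_smul, sub_zero]
  rw [AA_zero_right, add_zero]

include hsy in
theorem br_zx {p a b : V} (haa : B a a = 1) (hpa : B p a = 0) (hpb : B p b = 0) (hab : B a b = 0) :
    AA B a b * AA B p a - AA B p a * AA B a b = AA B p b := by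
  rw [br_AA (AA_mem hsy _ _), AA_apply, AA_apply, hsy a p, hsy b p, hpa, hpb, haa, hsy b a, hab]
  simp only [zero_smul, one_smul, sub_zero]
  rw [AA_zero_left, zero_add]

include hsy in
theorem br_zy {p a b : V} (hbb : B b b = 1) (hpa : B p a = 0) (hpb : B p b = 0) (hab : B a b = 0) :
    AA B a b * AA B p b - AA B p b * AA B a b = -AA B p a := by
  rw [br_AA (AA_mem hsy _ _), AA_apply, AA_apply, hsy a p, hsy b p, hpa, hpb, hbb, hab]
  simp only [zero_smul, one_smul, sub_zero, zero_sub]
  rw [AA_zero_left, zero_add, AA_neg_right]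

variable [CharZero K] [IsAlgClosed K] [FiniteDimensional K V]

include hsy hnd in
/-- The orthogonal Lie algebra does not act on spaces of dimension less than `dim V - 1`
(`dim V - 2` if the dimension is even). -/
theorem soL_small (M : Type) [AddCommGroup M] [Module K M] [FiniteDimensional K M]
    (φ : spL B →ₗ[K] End K M) (hφ : ∀ Y Z W : spL B, (W : End K V) = Y * Z - Z * Y →
      φ W = φ Y * φ Z - φ Z * φ Y) (hinj : Injective φ) :
    2 * ((finrank K V - 1) / 2) ≤ finrank K M := by
  obtain ⟨e, he⟩ := exists_on hsy hnd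
  rcases Nat.lt_or_ge (finrank K V) 3 with hm | hm
  · have h0 : (finrank K V - 1) / 2 = 0 := by omega
    rw [h0]
    exact Nat.zero_le _
  set n := (finrank K V - 1) / 2 with hn
  obtain ⟨ι, hι⟩ : ∃ ι : K, ι ^ 2 = -1 := IsAlgClosed.exists_pow_nat_eq _ two_pos
  have hιι : ι * ι = -1 := by rw [← sq, hι]
  -- the vectors
  obtain ⟨p, a, b, hpp, hpa, hpb, haa, hbb, haa', hbb', hab⟩ : ∃ (p : V) (a b : Fin n → V),
      B p p = 1 ∧ (∀ k, B p (a k) = 0) ∧ (∀ k, B p (b k) = 0) ∧ (∀ k, B (a k) (a k) = 1) ∧
      (∀ k, B (b k) (b k) = 1) ∧ (∀ k l, k ≠ l → B (a k) (a l) = 0) ∧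
      (∀ k l, k ≠ l → B (b k) (b l) = 0) ∧ (∀ k l, B (a k) (b l) = 0) := by
    refine ⟨e ⟨0, by omega⟩, fun k => e ⟨2 * k + 1, by have := k.2; omega⟩,
      fun k => e ⟨2 * k + 2, by have := k.2; omega⟩, ?_, ?_, ?_, ?_, ?_, ?_, ?_, ?_⟩
    · rw [he, if_pos rfl]
    · intro k
      rw [he, if_neg]
      intro h
      have := congrArg Fin.val h
      simp only at this
      omega
    · intro k
      rw [he, if_neg]
      intro h
      have := congrArg Fin.val h
      simp only at this
      omega
    · intro k
      rw [he, if_pos rfl]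
    · intro k
      rw [he, if_pos rfl]
    · intro k l hkl
      rw [he, if_neg]
      intro h
      have := congrArg Fin.val h
      simp only at this
      exact hkl (Fin.ext (by omega))
    · intro k l hkl
      rw [he, if_neg]
      intro h
      have := congrArg Fin.val h
      simp only at this
      exact hkl (Fin.ext (by omega))
    · intro k l
      rw [he, if_neg]
      intro h
      have := congrArg Fin.val h
      simp only at this
      omega
  let s : V → V → spL B := fun u w => ⟨AA B u w, AA_mem hsy u w⟩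
  let x : Fin n → End K M := fun k => φ (s p (a k))
  let y : Fin n → End K M := fun k => φ (s p (b k))
  let z : Fin n → End K M := fun k => φ (s (a k) (b k))
  have hxy : ∀ k, x k * y k - y k * x k = z k := fun k =>
    (hφ (s p (a k)) (s p (b k)) (s (a k) (b k)) (br_xy hsy hpp (hpa k) (hpb k) (hab k k)).symm).symm
  have hzx : ∀ k, z k * x k - x k * z k = y k := fun k =>
    (hφ (s (a k) (b k)) (s p (a k)) (s p (b k))
      (br_zx hsy (haa k) (hpa k) (hpb k) (hab k k)).symm).symm
  have hzy : ∀ k, z k * y k - y k * z k = -x k := fun k => by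
    have h1 := hφ (s (a k) (b k)) (s p (b k)) (-s p (a k))
      (br_zy hsy (hbb k) (hpa k) (hpb k) (hab k k)).symm
    rw [map_neg] at h1
    exact h1.symm
  have hcomm : ∀ u w u' w', B u u' = 0 → B u w' = 0 → B w u' = 0 → B w w' = 0 →
      Commute (φ (s u w)) (φ (s u' w')) := by
    intro u w u' w' h1 h2 h3 h4
    have h5 := hφ (s u w) (s u' w') 0 (br_orth hsy h1 h2 h3 h4).symm
    rw [map_zero] at h5
    exact sub_eq_zero.1 h5.symm
  refine two_mul_card_le' n (fun k => x k + ι • y k) (fun k => -(x k - ι • y k))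
    (fun k => (2 * ι) • z k) ?_ ?_ ?_ ?_ ?_ ?_
  · intro k
    change (x k + ι • y k) * -(x k - ι • y k) - -(x k - ι • y k) * (x k + ι • y k) = (2 * ι) • z k
    rw [← hxy k]
    simp only [add_mul, mul_neg, neg_mul, mul_sub, sub_mul, mul_add, smul_mul_assoc,
      mul_smul_comm]
    module
  · intro k
    change (2 * ι) • z k * (x k + ι • y k) = (x k + ι • y k) * ((2 * ι) • z k + 2)
    have h1 : z k * x k = y k + x k * z k := by rw [← hzx k, sub_add_cancel]
    have h2 : z k * y k = -x k + y k * z k := by rw [← hzy k, sub_add_cancel]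
    have h3 : (x k + ι • y k) * (2 : End K M) = (2 : K) • x k + (2 * ι) • y k := by
      rw [mul_two]
      module
    rw [mul_add ((x k + ι • y k)), h3]
    simp only [add_mul, mul_add, smul_mul_assoc, mul_smul_comm, h1, h2, smul_add, smul_smul,
      smul_neg]
    have h4 : 2 * ι * ι = -2 := by linear_combination 2 * hιι
    have h5 : ι * (2 * ι) = -2 := by linear_combination 2 * hιι
    rw [h4, h5]
    module
  · intro k l hkl
    change Commute (x k + ι • y k) ((2 * ι) • z l)
    have h1 := hcomm p (a k) (a l) (b l) (hpa l) (hpb l) (haa' k l hkl) (hab k l)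
    have h2 := hcomm p (b k) (a l) (b l) (hpa l) (hpb l) (by rw [hsy]; exact hab l k)
      (hbb' k l hkl)
    exact (h1.add_left (h2.smul_left _)).smul_right _
  · intro k l hkl
    change Commute (-(x k - ι • y k)) ((2 * ι) • z l)
    have h1 := hcomm p (a k) (a l) (b l) (hpa l) (hpb l) (haa' k l hkl) (hab k l)
    have h2 := hcomm p (b k) (a l) (b l) (hpa l) (hpb l) (by rw [hsy]; exact hab l k)
      (hbb' k l hkl)
    exact (h1.sub_left (h2.smul_left _)).neg_left.smul_right _
  · intro k l
    change Commute ((2 * ι) • z k) ((2 * ι) • z l)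
    by_cases hkl : k = l
    · rw [hkl]
    · exact ((hcomm (a k) (b k) (a l) (b l) (haa' k l hkl) (hab k l) (by rw [hsy]; exact hab l k)
        (hbb' k l hkl)).smul_left _).smul_right _
  · intro k h0
    change x k + ι • y k = 0 at h0
    have h1 : φ (s p (a k) + ι • s p (b k)) = 0 := by
      rw [map_add, map_smul]
      exact h0
    have h2 : s p (a k) + ι • s p (b k) = 0 := hinj (by rw [h1, map_zero])
    have h3 := congrArg (fun X : spL B => B (a k) ((X : End K V) p)) h2
    change B (a k) ((AA B p (a k) + ι • AA B p (b k)) p) = B (a k) ((0 : End K V) p) at h3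
    rw [LinearMap.add_apply, LinearMap.smul_apply, AA_apply, AA_apply, hpp, hsy (a k) p, hpa,
      hsy (b k) p, hpb, one_smul, one_smul, zero_smul, sub_zero, sub_zero, map_add, map_smul, haa,
      hab, LinearMap.zero_apply, map_zero, smul_zero, add_zero] at h3
    exact one_ne_zero h3

end Pool.Agent.T6.H17.LO
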