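import Mathlib
import Pool.Agent.T6.H17.LO.Defs
import Pool.Agent.T6.H17.LO.SoSmall
import Pool.Agent.T6.H17.LW.Main

/-!
# Orthogonal representations with big monodromy
-/

set_option autoImplicit false
set_option linter.unusedSectionVars false

namespace Pool.Agent.T6.H17.LO

open Module Finset Function TensorProduct Pool.Agent.T6.H17.LW

variable {K : Type} [Field K] [CharZero K] [IsAlgClosed K] {Γ : Type} [Group Γ]
  {V : Type} [AddCommGroup V] [Module K V] [FiniteDimensional K V]
  {ρ : Representation K Γ V} {B : V →ₗ[K] V →ₗ[K] K} {χ : Γ →* K}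

theorem lieAlg_eq (B : V →ₗ[K] V →ₗ[K] K) : lieAlg B = spL B := rfl

/-- the components for the group of a form -/
theorem core_form (h : ∀ g u v, B (ρ g u) (ρ g v) = χ g * B u v) :
    Core ρ (lieAlg B) (LW.sp ρ χ) where
  isAct := isAct_sp
  mem w := sp_mem h w
  scal w := ⟨sc χ w / 2, by rw [LW.sp, sub_add_cancel]⟩
  conj s w := sp_cj s w

/-- the components of trace zero -/
theorem core_linear (ρ : Representation K Γ V) :
    Core ρ (LinearMap.ker (LinearMap.trace K V)) (fun w => tr0 (act ρ w)) where
  isAct :=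
    { add := fun x y => by rw [act_add, map_add]
      smul := fun c x => by rw [act_smul, map_smul]
      br := fun x y => by rw [act_br, tr0_br', tr0_br] }
  mem w := by
    rcases subsingleton_or_nontrivial V with hV | hV
    · have h1 : tr0 (act ρ w) = 0 := LinearMap.ext fun x => Subsingleton.elim _ _
      rw [h1]
      exact Submodule.zero_mem _
    · exact trace_tr0 _
  scal w := ⟨(finrank K V : K)⁻¹ * LinearMap.trace K V (act ρ w), by rw [tr0_apply, sub_add_cancel]⟩
  conj s w := by
    rw [act_cj']
    have h1 : LinearMap.trace K V (ρ s * act ρ w * ρ s⁻¹) = LinearMap.trace K V (act ρ w) := by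
      rw [LinearMap.trace_mul_comm, ← mul_assoc, rinv', one_mul]
    rw [tr0_apply, tr0_apply, h1, mul_sub, sub_mul, mul_smul_comm, smul_mul_assoc, mul_one, rinv]

theorem good_of (hO : IsOrthogonal ρ B χ) (hd : finrank K V = 3 ∨ 5 ≤ finrank K V)
    (hb : BigMonodromy ρ B) : Good ρ (lieAlg B) (LW.sp ρ χ) where
  toCore := core_form hO.multiplier
  full := by
    obtain ⟨γ, hγ⟩ := hb.infinite
    exact (core_form hO.multiplier).full_of_irr hb.irreducible
      ((core_form hO.multiplier).exists_word hγ)
  perfect := soL_perfect hO.symm hO.nondegenerate (by omega)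
  simple := soL_simple hO.symm hO.nondegenerate hd
  ne_bot := soL_ne_bot hO.symm hO.nondegenerate (by omega)

/-- **Unrelated representations are independent.** -/
theorem pf_of_unrelated (hO : IsOrthogonal ρ B χ) (hd : finrank K V = 3 ∨ 5 ≤ finrank K V)
    (hb : BigMonodromy ρ B) {M : Type} [AddCommGroup M] [Module K M] [FiniteDimensional K M]
    {τ : Representation K Γ M} (h : Unrelated ρ B τ) : Pf (lieAlg B) (act ρ) (act τ) := by
  have hg := good_of hO hd hb
  induction h with
  | small τ h =>
    exact hg.pf_of_small (isAct_act τ) (d := 2 * ((finrank K V - 1) / 2))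
      (fun M _ _ _ φ h1 h2 => soL_small hO.symm hO.nondegenerate M φ h1 h2) h
  | abelian τ Δ hΔ h => exact pf_abelian hg.perfect (isAct_act ρ) hg.full_act τ hΔ h
  | semisimple τ γ h h' => exact hg.pf_of_semisimple τ h h'
  | eigenvalue τ γ β β' h h' h'' => exact hg.pf_of_eigenvalue τ h h' h''
  | form τ B' χ' h hi h' => exact hg.pf_of_finrank (core_form h) hi h'
  | linear τ hi h' => exact hg.pf_of_finrank (core_linear τ) hi h'
  | exact σ τ π f g Δ hΔ hf hg' hfg _ _ ih ih' =>
    exact pf_exact hg.perfect (isAct_act ρ) σ τ π f g ⟨Δ, hΔ, hf⟩ ⟨Δ, hΔ, hg'⟩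
      (fun x hx => (hfg x).1 hx) ih ih'
  | tensor σ τ _ _ ih ih' => exact pf_tensor hg.perfect (isAct_act ρ) σ τ ih ih'
  | dual τ _ ih => exact pf_dual τ ih

end Pool.Agent.T6.H17.LO
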