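import Mathlib
import Pool.Agent.T6.H17.LO.Ortho
import Pool.Agent.TH125.Nod.Fft2

/-!
# Equivariant multilinear maps are combinations of products of pairings
-/

set_option autoImplicit false
set_option linter.unusedSectionVars false

namespace Pool.Agent.T6.H17.LO

open Module Finset Function Pool.Agent.TH125.Nod
open Pool.Agent.T6.H17.LW hiding pairing

variable {K : Type} [Field K] {I : Type} [DecidableEq I] {V : I → Type}
  [∀ i, AddCommGroup (V i)] [∀ i, Module K (V i)] {ω : ∀ i, V i →ₗ[K] V i →ₗ[K] K}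

theorem pairing_self (i : I) : pairing ω i i = ω i := by
  unfold pairing
  rw [dif_pos rfl]

theorem pairing_ne {i j : I} (h : i ≠ j) : pairing ω i j = 0 := by
  unfold pairing
  rw [dif_neg h]

section products

variable {S : Type} [Fintype S] {c : S → I} {m : ℕ}

/-- products of pairings -/
noncomputable def PP (ω : ∀ i, V i →ₗ[K] V i →ₗ[K] K) (c : S → I) (e : Fin m × Fin 2 ≃ S)
    (x : ∀ s, V (c s)) : K :=
  ∏ l, pairing ω (c (e (l, 0))) (c (e (l, 1))) (x (e (l, 0))) (x (e (l, 1)))

theorem exists_lin [DecidableEq S] (e : Fin m × Fin 2 ≃ S) (x : ∀ s, V (c s)) (s : S) :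
    ∃ L : V (c s) →ₗ[K] K, ∀ a, PP ω c e (update x s a) = L a := by
  obtain ⟨⟨l0, ε⟩, rfl⟩ := e.surjective s
  have hrest : ∀ (ε : Fin 2) (a : V (c (e (l0, ε)))), ∀ l ∈ (univ : Finset (Fin m)).erase l0,
      pairing ω (c (e (l, 0))) (c (e (l, 1))) (update x (e (l0, ε)) a (e (l, 0)))
        (update x (e (l0, ε)) a (e (l, 1))) =
      pairing ω (c (e (l, 0))) (c (e (l, 1))) (x (e (l, 0))) (x (e (l, 1))) := by
    intro ε a l hl
    have hl' := Finset.ne_of_mem_erase hl
    rw [update_of_ne, update_of_ne]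
    · intro h
      exact hl' (congrArg Prod.fst (e.injective h))
    · intro h
      exact hl' (congrArg Prod.fst (e.injective h))
  have h01 : e (l0, 1) ≠ e (l0, 0) := by
    intro h
    have h1 := congrArg Prod.snd (e.injective h)
    exact absurd h1 (by norm_num)
  set C := ∏ l ∈ (univ : Finset (Fin m)).erase l0,
    pairing ω (c (e (l, 0))) (c (e (l, 1))) (x (e (l, 0))) (x (e (l, 1))) with hC
  fin_cases ε
  · refine ⟨C • (pairing ω (c (e (l0, 0))) (c (e (l0, 1)))).flip (x (e (l0, 1))), fun a => ?_⟩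
    change PP ω c e (update x (e (l0, 0)) a) = C * _
    rw [PP, ← Finset.mul_prod_erase _ _ (Finset.mem_univ l0), Finset.prod_congr rfl (hrest 0 a),
      update_self, update_of_ne h01, mul_comm]
    try rfl
  · refine ⟨C • pairing ω (c (e (l0, 0))) (c (e (l0, 1))) (x (e (l0, 0))), fun a => ?_⟩
    change PP ω c e (update x (e (l0, 1)) a) = C * _
    rw [PP, ← Finset.mul_prod_erase _ _ (Finset.mem_univ l0), Finset.prod_congr rfl (hrest 1 a),
      update_self, update_of_ne (Ne.symm h01), mul_comm]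
    try rfl

variable {M : Type} [AddCommGroup M] [Module K M]

/-- the multilinear map -/
noncomputable def MP (ω : ∀ i, V i →ₗ[K] V i →ₗ[K] K) (c : S → I) (e : Fin m × Fin 2 ≃ S) (w : M) :
    MultilinearMap K (fun s => V (c s)) M where
  toFun x := PP ω c e x • w
  map_update_add' {_} x s a b := by
    obtain ⟨L, hL⟩ := exists_lin (ω := ω) e x s
    rw [hL, hL, hL, map_add, add_smul]
  map_update_smul' {_} x s r a := by
    obtain ⟨L, hL⟩ := exists_lin (ω := ω) e x s
    rw [hL, hL, map_smul, smul_eq_mul, mul_smul]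

end products

/-- the vectors of the bases -/
noncomputable def vec {B : I → Type} (b : ∀ i, Basis (B i) K (V i)) (y : Σ i, B i) (j : I) : V j :=
  (Pi.single y.1 (b y.1 y.2) : ∀ i, V i) j

theorem vec_self {B : I → Type} (b : ∀ i, Basis (B i) K (V i)) (i : I) (a : B i) :
    vec b ⟨i, a⟩ i = b i a := Pi.single_eq_same _ _

theorem vec_ne {B : I → Type} (b : ∀ i, Basis (B i) K (V i)) {y : Σ i, B i} {j : I}
    (h : y.1 ≠ j) : vec b y j = 0 := Pi.single_eq_of_ne (Ne.symm h) _

/-- the Gram matrix -/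
noncomputable def gm (ω : ∀ i, V i →ₗ[K] V i →ₗ[K] K) {B : I → Type}
    (b : ∀ i, Basis (B i) K (V i)) : Matrix (Σ i, B i) (Σ i, B i) K :=
  fun x y => ω x.1 (b x.1 x.2) (vec b y x.1)

section gram

variable {B : I → Type} (b : ∀ i, Basis (B i) K (V i))

theorem gm_ne (x y : Σ i, B i) (h : x.1 ≠ y.1) : gm ω b x y = 0 := by
  rw [gm, vec_ne b (Ne.symm h), map_zero]

theorem gm_same (i : I) (a a' : B i) : gm ω b ⟨i, a⟩ ⟨i, a'⟩ = ω i (b i a) (b i a') := by
  rw [gm, vec_self]

theorem gm_symm (hsy : ∀ i x y, ω i x y = ω i y x) (x y : Σ i, B i) :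
    gm ω b x y = gm ω b y x := by
  by_cases h : x.1 = y.1
  · obtain ⟨i, a⟩ := x
    obtain ⟨j, a'⟩ := y
    subst h
    rw [gm_same, gm_same, hsy]
  · rw [gm_ne b x y h, gm_ne b y x (Ne.symm h)]

theorem gm_inv [Fintype I] [∀ i, Fintype (B i)] [∀ i, DecidableEq (B i)]
    (hsy : ∀ i x y, ω i x y = ω i y x)
    (hnd : ∀ i u, (∀ v, ω i u v = 0) → u = 0) : ∃ R, gm ω b * R = 1 := by
  have hinj : Injective (gm ω b).mulVec := by
    rw [← Matrix.coe_mulVecLin, ← LinearMap.ker_eq_bot, Submodule.eq_bot_iff]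
    intro c hc
    rw [LinearMap.mem_ker, Matrix.mulVecLin_apply] at hc
    have h1 : ∀ i, ∑ a, c ⟨i, a⟩ • b i a = 0 := by
      intro i
      have h2 : (ω i).flip (∑ a, c ⟨i, a⟩ • b i a) = 0 := by
        refine (b i).ext fun a => ?_
        have h3 := congrFun hc ⟨i, a⟩
        rw [Matrix.mulVec, dotProduct, Fintype.sum_sigma, Pi.zero_apply, Finset.sum_eq_single i] at h3
        · rw [LinearMap.flip_apply, map_sum, LinearMap.zero_apply, ← h3]
          refine Finset.sum_congr rfl fun a' _ => ?_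
          rw [map_smul, gm_same, smul_eq_mul, mul_comm]
        · intro j _ hj
          refine Finset.sum_eq_zero fun a' _ => ?_
          rw [gm_ne b _ _ (Ne.symm hj), zero_mul]
        · intro h
          exact absurd (Finset.mem_univ _) h
      refine hnd i _ fun v => ?_
      have h3 := LinearMap.congr_fun h2 v
      rw [LinearMap.flip_apply, LinearMap.zero_apply] at h3
      rw [hsy, h3]
    funext y
    obtain ⟨i, a⟩ := y
    exact (Fintype.linearIndependent_iff.1 (b i).linearIndependent _ (h1 i)) a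
  have hu := Matrix.mulVec_injective_iff_isUnit.1 hinj
  exact ⟨(gm ω b)⁻¹, Matrix.mul_nonsing_inv _ ((Matrix.isUnit_iff_isUnit_det _).1 hu)⟩

end gram

section main

variable [CharZero K] [IsAlgClosed K] [Fintype I] [∀ i, FiniteDimensional K (V i)] {Γ : Type}
  [Group Γ] {ρ : ∀ i, Representation K Γ (V i)} {χ : I → Γ →* K}
  {M : Type} [AddCommGroup M] [Module K M] [FiniteDimensional K M] {τ : Representation K Γ M}
  {S : Type} [Fintype S] [DecidableEq S] {c : S → I}

/-- **Multilinear maps killed by the orthogonal Lie algebras are combinations of products of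
pairings**, if there are few variables of each kind. -/
theorem mem_span_MP (hsy : ∀ i x y, ω i x y = ω i y x) (hnd : ∀ i u, (∀ v, ω i u v = 0) → u = 0)
    (hw : ∀ i, ∀ Y ∈ spL (ω i), ∃ w : Wd K Γ, act (ρ i) w = Y ∧ (∀ j, j ≠ i → act (ρ j) w = 0) ∧
      act τ w = 0) (hS : ∀ i, Nat.card {s // c s = i} < finrank K (V i))
    {h : MultilinearMap K (fun s => V (c s)) M}
    (hh : ∃ Δ : Subgroup Γ, Δ.FiniteIndex ∧ ∀ g ∈ Δ, ∀ x,
      h (fun s => ρ (c s) g (x s)) = τ g (h x)) :
    h ∈ Submodule.span K {f | ∃ (m : ℕ) (e : Fin m × Fin 2 ≃ S) (w : M), f = MP ω c e w} := by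
  classical
  let B : I → Type := fun i => Fin (finrank K (V i))
  let b : ∀ i, Basis (B i) K (V i) := fun i => Module.finBasis K (V i)
  obtain ⟨R, hR⟩ := gm_inv (ω := ω) b hsy hnd
  -- the coordinates
  let Φ : MultilinearMap K (fun s => V (c s)) M →ₗ[K] ((S → Σ i, B i) → M) :=
    { toFun := fun f J => f fun s => vec b (J s) (c s)
      map_add' := fun f g => rfl
      map_smul' := fun r f => rfl }
  have hΦ : ∀ f J, Φ f J = f fun s => vec b (J s) (c s) := fun f J => rfl
  have hΦinj : Injective Φ := by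
    intro f g hfg
    refine Module.Basis.ext_multilinear (fun s => b (c s)) fun r => ?_
    have h1 := congrFun hfg fun s => ⟨c s, r s⟩
    rw [hΦ, hΦ] at h1
    have h2 : (fun s => vec b (⟨c s, r s⟩ : Σ i, B i) (c s)) = fun s => b (c s) (r s) := by
      funext s
      exact vec_self b (c s) (r s)
    rw [h2] at h1
    exact h1
  have hsup : ∀ f, Sup (Sigma.fst : (Σ i, B i) → I) c (Φ f) := by
    intro f J hJ
    push Not at hJ
    obtain ⟨s, hs⟩ := hJ
    rw [hΦ]
    exact f.map_coord_zero s (vec_ne b hs)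
  -- invariance
  have hupd : ∀ (J : S → Σ i, B i) (s : S) (u : Σ i, B i),
      (fun t => vec b (update J s u t) (c t)) =
        update (fun t => vec b (J t) (c t)) s (vec b u (c s)) := by
    intro J s u
    funext t
    by_cases hts : t = s
    · subst hts
      rw [update_self, update_self]
    · rw [update_of_ne hts, update_of_ne hts]
  have hinv : Inv (Sigma.fst : (Σ i, B i) → I) (gm ω b) (fun _ : I => (((1 : ℤ)) : K)) (Φ h) := by
    rintro ⟨i, u⟩ ⟨i', v⟩ huv J
    change i = i' at huv
    subst huv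
    obtain ⟨w, hw1, hw2, hw3⟩ := hw i (AA (ω i) (b i v) (b i u)) (AA_mem (hsy i) _ _)
    -- the action on basis vectors
    have h1 : ∀ (y : Σ i, B i) (j : I), act (ρ j) w (vec b y j) =
        gm ω b ⟨i, v⟩ y • vec b ⟨i, u⟩ j - gm ω b ⟨i, u⟩ y • vec b ⟨i, v⟩ j := by
      intro y j
      by_cases hj : j = i
      · subst hj
        rw [hw1, AA_apply, vec_self, vec_self]
        rfl
      · rw [hw2 j hj, vec_ne b (y := ⟨i, u⟩) (Ne.symm hj), vec_ne b (y := ⟨i, v⟩) (Ne.symm hj),
          smul_zero, smul_zero, sub_zero, LinearMap.zero_apply]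
    have h2 := act_multi (σ := fun s => ρ (c s)) (τ := τ) (h := h) hh w
    rw [hw3] at h2
    have h3 := congrArg (fun F : MultilinearMap K (fun s => V (c s)) M =>
      F fun s => vec b (J s) (c s)) h2
    simp only [der_apply, LinearMap.compMultilinearMap_apply, LinearMap.zero_apply] at h3
    rw [← h3]
    refine Finset.sum_congr rfl fun s _ => ?_
    rw [h1, MultilinearMap.map_update_sub, MultilinearMap.map_update_smul,
      MultilinearMap.map_update_smul, hΦ, hΦ, hupd, hupd]
    push_cast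
    rw [one_mul]
  have hfft := Pool.Agent.TH125.Nod.fft (K := K) (M := M) (κ := (Sigma.fst : (Σ i, B i) → I))
    (Q := gm ω b) (R := R) (s := fun _ : I => (1 : ℤ)) (fun _ => Or.inl rfl)
    (fun x y hxy => gm_ne b x y hxy) (fun x y => by
      push_cast
      rw [one_mul]
      exact gm_symm b hsy x y) hR (Fintype.card S) S c (Φ h) rfl (hsup h) hinv
    (fun i _ => by
      have h1 := hS i
      rw [Nat.card_eq_fintype_card, Fintype.card_subtype] at h1
      refine lt_of_lt_of_le h1 ?_
      have h2 : finrank K (V i) = (Finset.univ.image fun a : B i => (⟨i, a⟩ : Σ i, B i)).card := by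
        rw [Finset.card_image_of_injective _ sigma_mk_injective, Finset.card_univ, Fintype.card_fin]
      rw [h2]
      refine Finset.card_le_card fun x hx => ?_
      obtain ⟨a, -, rfl⟩ := Finset.mem_image.1 hx
      exact mem_blk.2 rfl)
  -- the generators
  have hgen : Gen (Sigma.fst : (Σ i, B i) → I) (gm ω b) c ≤
      (Submodule.span K {f | ∃ (m : ℕ) (e : Fin m × Fin 2 ≃ S) (w : M), f = MP ω c e w}).map Φ := by
    unfold Gen
    rw [Submodule.span_le]
    rintro _ ⟨m, e, w, rfl⟩
    refine ⟨MP ω c e w, Submodule.subset_span ⟨m, e, w, rfl⟩, ?_⟩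
    funext J
    by_cases hJ : ∀ s, (J s).1 = c s
    · rw [gen, if_pos hJ, hΦ]
      change PP ω c e _ • w = _
      congr 1
      refine Finset.prod_congr rfl fun l _ => ?_
      have key : ∀ (x y : Σ i, B i) (i j : I), x.1 = i → y.1 = j →
          pairing ω i j (vec b x i) (vec b y j) = gm ω b x y := by
        rintro ⟨i, x⟩ ⟨j, y⟩ _ _ rfl rfl
        by_cases hij : i = j
        · subst hij
          rw [pairing_self, vec_self, vec_self, gm_same]
        · rw [pairing_ne hij, gm_ne b _ _ hij]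
          rfl
      exact key _ _ _ _ (hJ _) (hJ _)
    · rw [hsup _ J hJ, gen, if_neg hJ]
  obtain ⟨h', hh', hΦh⟩ := hgen hfft
  rw [← hΦinj hΦh]
  exact hh'

end main

end Pool.Agent.T6.H17.LO
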