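import Mathlib
import Pool.Agent.T6.H17.LO.Split
import Pool.Agent.T6.H17.LW.Tate

/-!
# The coefficients are Tate vectors: orthogonal representations
-/

set_option autoImplicit false
set_option linter.unusedSectionVars false

namespace Pool.Agent.T6.H17.LO

open Module Finset Function Pool.Agent.TH125.Nod
open Pool.Agent.T6.H17.LW hiding pairing PP MP mem_span_MP pairing_self pairing_ne PP_rho pairing_rho finite_PP split

variable {K : Type} [Field K] [CharZero K] [IsAlgClosed K] {I : Type} [DecidableEq I] [Fintype I]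
  {V : I → Type} [∀ i, AddCommGroup (V i)] [∀ i, Module K (V i)] [∀ i, FiniteDimensional K (V i)]
  {ω : ∀ i, V i →ₗ[K] V i →ₗ[K] K} {Γ : Type} [Group Γ] {ρ : ∀ i, Representation K Γ (V i)}
  {χ : I → Γ →* K}
  {M : Type} [AddCommGroup M] [Module K M] [FiniteDimensional K M] {τ : Representation K Γ M}
  {S : Type} [Fintype S] [DecidableEq S] {c : S → I}

theorem pairing_rho (hω : ∀ i g u v, ω i (ρ i g u) (ρ i g v) = χ i g * ω i u v) {i j : I} (g : Γ)
    (x : V i) (y : V j) : pairing ω i j (ρ i g x) (ρ j g y) = χ i g * pairing ω i j x y := by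
  by_cases h : i = j
  · subst h
    rw [pairing_self, hω]
  · rw [pairing_ne h, LinearMap.zero_apply, LinearMap.zero_apply, LinearMap.zero_apply,
      LinearMap.zero_apply, mul_zero]

theorem PP_rho (hω : ∀ i g u v, ω i (ρ i g u) (ρ i g v) = χ i g * ω i u v) {m : ℕ}
    (e : Fin m × Fin 2 ≃ S) (g : Γ) (x : ∀ s, V (c s)) :
    PP ω c e (fun s => ρ (c s) g (x s)) = (∏ l, χ (c (e (l, 0))) g) * PP ω c e x := by
  rw [PP, PP, ← Finset.prod_mul_distrib]
  exact Finset.prod_congr rfl fun l _ => pairing_rho hω g _ _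

/-- the products of pairings form a finite set -/
theorem finite_PP : {p : (∀ s, V (c s)) → K | ∃ (m : ℕ) (e : Fin m × Fin 2 ≃ S),
    p = PP ω c e}.Finite := by
  classical
  have h1 : {p : (∀ s, V (c s)) → K | ∃ (m : ℕ) (e : Fin m × Fin 2 ≃ S), p = PP ω c e} ⊆
      ⋃ m ∈ Finset.range (Fintype.card S + 1), Set.range fun e : Fin m × Fin 2 ≃ S => PP ω c e := by
    rintro _ ⟨m, e, rfl⟩
    rw [Set.mem_iUnion₂]
    refine ⟨m, ?_, e, rfl⟩
    have h2 := Fintype.card_congr e
    rw [Fintype.card_prod, Fintype.card_fin, Fintype.card_fin] at h2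
    rw [Finset.mem_range]
    omega
  refine Set.Finite.subset ?_ h1
  refine Set.Finite.biUnion (Finset.finite_toSet _) fun m _ => Set.finite_range _

/-- **The main theorem.** -/
theorem split (hO : ∀ i, IsOrthogonal (ρ i) (ω i) (χ i))
    (hd : ∀ i, finrank K (V i) = 3 ∨ 5 ≤ finrank K (V i)) (hb : ∀ i, BigMonodromy (ρ i) (ω i))
    (hiso : ∀ i j, i ≠ j → Unrelated (ρ i) (ω i) (ρ j) ∨ Unrelated (ρ j) (ω j) (ρ i))
    (hτ : ∀ i, Unrelated (ρ i) (ω i) τ)
    (hS : ∀ i, Nat.card {s // c s = i} < finrank K (V i)) {h : MultilinearMap K (fun s => V (c s)) M}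
    (hh : ∃ Δ : Subgroup Γ, Δ.FiniteIndex ∧ ∀ g ∈ Δ, ∀ x,
      h (fun s => ρ (c s) g (x s)) = τ g (h x)) :
    h ∈ Submodule.span K {f | ∃ (m : ℕ) (e : Fin m × Fin 2 ≃ S) (w : M),
      (∃ Δ : Subgroup Γ, Δ.FiniteIndex ∧ ∀ g ∈ Δ, τ g w = (∏ l, χ (c (e (l, 0))) g) • w) ∧
      ∀ x, f x = (∏ l, pairing ω (c (e (l, 0))) (c (e (l, 1))) (x (e (l, 0))) (x (e (l, 1)))) •
        w} := by
  classical
  have hsy : ∀ i x y, ω i x y = ω i y x := fun i => (hO i).symm
  have hnd : ∀ i u, (∀ v, ω i u v = 0) → u = 0 := fun i => (hO i).nondegenerate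
  have hmul : ∀ i g u v, ω i (ρ i g u) (ρ i g v) = χ i g * ω i u v := fun i => (hO i).multiplier
  have hgood := fun i => good_of (hO i) (hd i) (hb i)
  have hpair : ∀ i j, j ≠ i → Pf (spL (ω i)) (act (ρ i)) (act (ρ j)) := by
    intro i j hij
    rcases hiso i j (Ne.symm hij) with h1 | h1
    · exact pf_of_unrelated (hO i) (hd i) (hb i) h1
    · exact (hgood j).symm (hgood i) (pf_of_unrelated (hO j) (hd j) (hb j) h1)
  have hw : ∀ i, ∀ Y ∈ spL (ω i), ∃ w : Wd K Γ, act (ρ i) w = Y ∧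
      (∀ j, j ≠ i → act (ρ j) w = 0) ∧ act τ w = 0 := by
    intro i
    exact pf_joint (hgood i).perfect (isAct_act (ρ i)) (hgood i).full_act (fun j => isAct_act (ρ j))
      (fun j => j ≠ i) (fun j hj => hpair i j hj) (isAct_act τ)
      (pf_of_unrelated (hO i) (hd i) (hb i) (hτ i))
  have h1 := mem_span_MP (ω := ω) (ρ := ρ) (τ := τ) (c := c) hsy hnd hw hS hh
  -- as functions
  have h2 : (fun x => h x) ∈ Submodule.span K {f : (∀ s, V (c s)) → M |
      ∃ p ∈ {p : (∀ s, V (c s)) → K | ∃ (m : ℕ) (e : Fin m × Fin 2 ≃ S), p = PP ω c e},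
        ∃ w : M, f = fun x => p x • w} := by
    have h3 : ∀ f ∈ Submodule.span K {f | ∃ (m : ℕ) (e : Fin m × Fin 2 ≃ S) (w : M),
        f = MP ω c e w}, (fun x => f x) ∈ Submodule.span K {f : (∀ s, V (c s)) → M |
        ∃ p ∈ {p : (∀ s, V (c s)) → K | ∃ (m : ℕ) (e : Fin m × Fin 2 ≃ S), p = PP ω c e},
        ∃ w : M, f = fun x => p x • w} := by
      intro f hf
      induction hf using Submodule.span_induction with
      | mem f hf =>
        obtain ⟨m, e, w, rfl⟩ := hf
        exact Submodule.subset_span ⟨_, ⟨m, e, rfl⟩, w, rfl⟩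
      | zero => exact Submodule.zero_mem _
      | add f g _ _ hf hg => exact Submodule.add_mem _ hf hg
      | smul r f _ hf => exact Submodule.smul_mem _ r hf
    exact h3 h h1
  obtain ⟨T, hT, p, w, hp, hli, hhw⟩ := indep_coeff finite_PP h2
  choose m e hme using hp
  obtain ⟨Δ, hΔ, hh⟩ := hh
  -- the coefficients
  have hwT : ∀ t, ∀ g ∈ Δ, τ g (w t) = (∏ l, χ (c (e t (l, 0))) g) • w t := by
    intro t g hg
    refine (coeff_eq (w := fun t => (∏ l, χ (c (e t (l, 0))) g) • w t)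
      (w' := fun t => τ g (w t)) hli (fun x => ?_) t).symm
    have h3 := hh g hg x
    have h4 : ∀ y, h y = ∑ t, p t y • w t := fun y => congrFun hhw y
    rw [h4, h4, map_sum] at h3
    rw [← Finset.sum_congr rfl fun t _ => map_smul (τ g) (p t x) (w t), ← h3]
    refine Finset.sum_congr rfl fun t _ => ?_
    rw [hme t, PP_rho hmul, smul_smul, mul_comm]
  have h5 : h = ∑ t, MP ω c (e t) (w t) := by
    ext x
    have h4 : h x = ∑ t, p t x • w t := congrFun hhw x
    rw [h4, _root_.sum_apply]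
    refine Finset.sum_congr rfl fun t _ => ?_
    rw [hme t]
    rfl
  rw [h5]
  refine Submodule.sum_mem _ fun t _ => Submodule.subset_span
    ⟨m t, e t, w t, ⟨Δ, hΔ, hwT t⟩, fun x => rfl⟩

end Pool.Agent.T6.H17.LO
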